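import Pool.Agent.Work.MP_7b0bad_ag.Ad.Stmts
import Pool.Agent.Work.MP_7b0bad_ag.MT.ANax
import Pool.Agent.Work.MP_7b0bad_ag.MT.MFam
import Pool.Agent.Work.MP_7b0bad_ag.MT.MChar2

set_option autoImplicit false

/-!
# Block Ad: assemblies for the special linear groups
-/

open Polynomial Pointwise Matrix

namespace MP7b0bad.Ad

open MT (Bor2 h2 u2 Rz Nz)

theorem ALie_nzmap {p : ℕ} {G G' : Type} [Group G] [Group G'] (f : G →* G') {P : Subgroup G}
    {c : G} (h : Nz p P c) : Nz p (P.map f) (f c) := by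
  obtain ⟨h1, h2, h3⟩ := h
  refine ⟨h1.map f, fun h => h2 (h.trans (orderOf_map_dvd f c)), ?_⟩
  rintro _ ⟨x, hx, rfl⟩
  exact ⟨c * x * c⁻¹, h3 x hx, by rw [map_mul, map_mul, map_inv]⟩

theorem prf_MLie (hFam : MT.MFam) (hRz : LRz) : MT.MLie := by
  intro k _ _ p _ _ G _ _ P r F _ _ _ φ hP hu hn hc htop s
  have h1 := hFam k p G P r (fun i => φ i (h2 (s i))) (fun i => (U2 (F i)).map (φ i))
    (fun i => (φ i).range) hP
    (fun i => ⟨hP, (ALie_nzmap (φ i) (hRz p k (F i) (s i)).1).2.1, hn i (s i)⟩)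
    (fun i => ALie_nzmap (φ i) (hRz p k (F i) (s i)).1)
    (fun i => by
      rintro _ ⟨_, ⟨b, rfl⟩, rfl⟩
      exact hu i b)
    (fun i j => hc i j (s i) (s j))
    (fun i => by
      have h2 := MT.anax_tr p (φ i) (hRz p k (F i) (s i)).2
      rw [← MonoidHom.range_eq_map] at h2
      exact h2)
  have h3 := h1.2
  have e : P ⊔ ⨆ i, (φ i).range = ⊤ := htop
  rw [e] at h3
  exact MT.MChar2_ofTop k G _ h3

theorem prf_MSLn (hLie : MT.MLie) (hSyl : SSyl) (hNrm : SNrm) (hPrep : SPrep) (hGen : SGen) :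
    MT.MSLn := by
  intro k _ _ p _ _ F _ _ _ n P c hc
  cases n with
  | zero => exact MT.mfam_triv k _ inferInstance _
  | succ n =>
    obtain ⟨hU, hconj⟩ := hSyl p F (n + 1)
    obtain ⟨g, hg⟩ := hconj P
    have hmem : ∀ x, g * x * g⁻¹ ∈ P ↔ x ∈ UT (n + 1) F := by
      intro x
      change g * x * g⁻¹ ∈ (P : Subgroup (SpecialLinearGroup (Fin (n + 1)) F)) ↔ _
      rw [hg, Subgroup.mem_map]
      constructor
      · rintro ⟨y, hy, hyx⟩
        have : y = x := (MulAut.conj g).injective hyx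
        rw [← this]
        exact hy
      · intro hx
        exact ⟨x, hx, rfl⟩
    obtain ⟨t, ht, hteq⟩ := hNrm F (n + 1) (g⁻¹ * c * g) (by
      intro x hx
      rw [← hmem]
      have h1 := hc _ ((hmem x).2 hx)
      have e : g * (g⁻¹ * c * g * x * (g⁻¹ * c * g)⁻¹) * g⁻¹ = c * (g * x * g⁻¹) * c⁻¹ := by group
      rw [e]
      exact h1)
    obtain ⟨hp1, hp2, hp3, hp4⟩ := hPrep F n
    obtain ⟨s, hs⟩ := hp4 t ht
    have h1 := hLie k p (SpecialLinearGroup (Fin (n + 1)) F) (UT (n + 1) F) n (fun _ => F)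
      (fun i => emb i) hU (fun i b => hp1 i b) (fun i s x hx => hp2 i s x hx)
      (fun i j s t => hp3 i j s t) (hGen F n) s
    rw [hs, ← hteq] at h1
    have h2 := all_QIso k _ _ (MulAut.conj g) _ h1
    have h3 : (UT (n + 1) F ⊔ Subgroup.zpowers (g⁻¹ * c * g)).map (MulAut.conj g).toMonoidHom =
        (P : Subgroup (SpecialLinearGroup (Fin (n + 1)) F)) ⊔ Subgroup.zpowers c := by
      rw [Subgroup.map_sup, MonoidHom.map_zpowers, hg]
      congr 2
      change g * (g⁻¹ * c * g) * g⁻¹ = c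
      group
    rw [h3] at h2
    exact h2

theorem prf_MSL2 (hRz : LRz) (hChar : MT.MChar2) (hS2N : S2N) : MT.MSL2 := by
  intro k _ _ _ F _ _ _ P c hN hcl
  have _inst : Fact (Nat.Prime 2) := ⟨Nat.prime_two⟩
  have hP : P ≠ ⊥ := by
    rintro rfl
    have h1 : Subgroup.normalClosure ((⊥ : Subgroup (SpecialLinearGroup (Fin 2) F)) :
        Set (SpecialLinearGroup (Fin 2) F)) = ⊥ := by
      rw [eq_bot_iff]
      exact Subgroup.normalClosure_le_normal le_rfl
    rw [h1] at hcl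
    have h2 : u2 (1 : F) ∈ (⊥ : Subgroup (SpecialLinearGroup (Fin 2) F)) := by
      rw [hcl]
      exact Subgroup.mem_top _
    rw [Subgroup.mem_bot] at h2
    have h3 := congrArg (fun M : SpecialLinearGroup (Fin 2) F => M.1 0 1) h2
    simp [u2] at h3
  obtain ⟨F', g, s, h1, h2⟩ := hS2N F P c hN hP
  have hch : CharP F' 2 := (RingHom.charP_iff F'.subtype F'.subtype_injective 2).2 inferInstance
  let ψ : SpecialLinearGroup (Fin 2) F' →* SpecialLinearGroup (Fin 2) F :=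
    (MulAut.conj g).toMonoidHom.comp (SpecialLinearGroup.map F'.subtype)
  have hψ : ψ (MT.h2 s) = c := h2
  have h3 := hRz 2 k F' s
  have h4 := ALie_nzmap ψ h3.1
  have h5 := MT.anax_tr 2 ψ h3.2
  rw [hψ] at h4 h5
  refine hChar k (SpecialLinearGroup (Fin 2) F) P ((U2 F').map ψ) _ c hN h4 ?_ h5 hcl
  rintro _ ⟨_, ⟨b, rfl⟩, rfl⟩
  exact h1 b

end MP7b0bad.Ad
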