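import Pool.Agent.Work.MP_7b0bad_ag.Ad.Stmts

set_option autoImplicit false

/-!
# Block Ad: [DBas] basis of the space of roots adapted to a place over infinity
-/

open Polynomial Pointwise Matrix

namespace MP7b0bad.Ad

open SnT (cc xx)

section

variable {k : Type} [Field k] {L : Type} [Field L] [Algebra (RatFunc k) L]
  {A : ValuationSubring L}

theorem DBas_C (hA : AtInfty (k := k) A) (c : k) (hc : c ≠ 0) :
    A.valuation (cc k L c) = 1 := by
  have h1 : A.valuation (cc k L c) ≤ 1 := (A.valuation_le_one_iff _).2 (hA.1 c)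
  have h2 : A.valuation (cc k L c⁻¹) ≤ 1 := (A.valuation_le_one_iff _).2 (hA.1 c⁻¹)
  have h3 : A.valuation (cc k L c) * A.valuation (cc k L c⁻¹) = 1 := by
    rw [← map_mul, ← map_mul, mul_inv_cancel₀ hc, map_one, map_one]
  refine le_antisymm h1 ?_
  rw [← h3]
  exact mul_le_of_le_one_right' h2

/-- a product of elements of the maximal ideal -/
theorem DBas_lt (s : Multiset L) (hs : s ≠ 0) (h : ∀ r ∈ s, A.valuation r < 1) :
    A.valuation s.prod < 1 := by
  have h1 : ∀ t : Multiset L, (∀ r ∈ t, A.valuation r < 1) → A.valuation t.prod ≤ 1 := by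
    intro t
    induction t using Multiset.induction_on with
    | empty => intro _; simp
    | cons a t ih =>
      intro ht
      rw [Multiset.prod_cons, map_mul]
      exact mul_le_one' (ht a (Multiset.mem_cons_self a t)).le
        (ih fun r hr => ht r (Multiset.mem_cons_of_mem hr))
  obtain ⟨a, ha⟩ := Multiset.exists_mem_of_ne_zero hs
  obtain ⟨t, rfl⟩ := Multiset.exists_cons_of_mem ha
  rw [Multiset.prod_cons, map_mul]
  refine lt_of_le_of_lt ?_ (h a ha)
  exact mul_le_of_le_one_right' (h1 t fun r hr => h r (Multiset.mem_cons_of_mem hr))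

/-- a product of elements outside the valuation ring -/
theorem DBas_gt (s : Multiset L) (hs : s ≠ 0) (h : ∀ r ∈ s, 1 < A.valuation r) :
    1 < A.valuation s.prod := by
  have h1 : ∀ t : Multiset L, (∀ r ∈ t, 1 < A.valuation r) → 1 ≤ A.valuation t.prod := by
    intro t
    induction t using Multiset.induction_on with
    | empty => intro _; simp
    | cons a t ih =>
      intro ht
      rw [Multiset.prod_cons, map_mul]
      exact one_le_mul (ht a (Multiset.mem_cons_self a t)).le
        (ih fun r hr => ht r (Multiset.mem_cons_of_mem hr))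
  obtain ⟨a, ha⟩ := Multiset.exists_mem_of_ne_zero hs
  obtain ⟨t, rfl⟩ := Multiset.exists_cons_of_mem ha
  rw [Multiset.prod_cons, map_mul]
  refine lt_of_lt_of_le (h a ha) ?_
  exact le_mul_of_one_le_right' (h1 t fun r hr => h r (Multiset.mem_cons_of_mem hr))

end

/-- the set of the roots is finite and has at most `q ^ 2` elements -/
theorem DBas_fin {k : Type} [Field k] {q : ℕ} (hq : 2 ≤ q) {L : Type} [Field L]
    [Algebra (RatFunc k) L] (hdeg : (FG k q).natDegree = q ^ 2 - 1) :
    (Vr k q L).Finite ∧ (Vr k q L).ncard ≤ q ^ 2 := by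
  classical
  have h1 : Vr k q L = insert 0 ((FG k q).rootSet L) := by
    ext y
    rw [mem_Vr hq, Set.mem_insert_iff]
  have hfin : ((FG k q).rootSet L).Finite := Polynomial.rootSet_finite _ _
  refine ⟨by rw [h1]; exact hfin.insert 0, ?_⟩
  rw [h1]
  refine (Set.ncard_insert_le _ _).trans ?_
  have h2 : ((FG k q).rootSet L).ncard ≤ q ^ 2 - 1 := by
    rw [Polynomial.rootSet_def, Set.ncard_coe_finset, ← hdeg]
    refine (Multiset.toFinset_card_le _).trans ?_
    rw [Polynomial.aroots_def]
    refine (Polynomial.card_roots' _).trans ?_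
    exact Polynomial.natDegree_map_le
  have h3 : 1 ≤ q ^ 2 := Nat.one_le_pow _ _ (by omega)
  omega

/-- the roots are not all in the maximal ideal and not all outside the valuation ring -/
theorem DBas_two {k : Type} [Field k] {q : ℕ} (hq : 2 ≤ q) {L : Type} [Field L]
    [Algebra (RatFunc k) L] [IsSplittingField (RatFunc k) L (FG k q)] (A : ValuationSubring L)
    (hm : (FG k q).Monic) (hdeg : (FG k q).natDegree = q ^ 2 - 1)
    (hval : ∀ y ∈ Vr k q L, y ≠ 0 → y ∈ A.nonunits ∨ y ∉ A) :
    (∃ w ∈ Vr k q L, w ≠ 0 ∧ w ∈ A.nonunits) ∧ ∃ v ∈ Vr k q L, v ∉ A := by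
  classical
  have hsp : ((FG k q).map (algebraMap (RatFunc k) L)).Splits := IsSplittingField.splits L (FG k q)
  have hmm : ((FG k q).map (algebraMap (RatFunc k) L)).Monic := hm.map _
  have hprod : (FG k q).map (algebraMap (RatFunc k) L) =
      (((FG k q).map (algebraMap (RatFunc k) L)).roots.map (X - C ·)).prod :=
    hsp.eq_prod_roots_of_monic hmm
  set s : Multiset L := ((FG k q).map (algebraMap (RatFunc k) L)).roots with hs
  have hq2 : 4 ≤ q ^ 2 := by
    have : 2 ^ 2 ≤ q ^ 2 := Nat.pow_le_pow_left hq 2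
    omega
  have hone : (s.map (0 - ·)).prod = (1 : L) := by
    have h1 := congrArg (Polynomial.eval (0 : L)) hprod
    rw [Polynomial.eval_multiset_prod, Multiset.map_map] at h1
    have h2 : Polynomial.eval (0 : L) ((FG k q).map (algebraMap (RatFunc k) L)) = 1 := by
      rw [Polynomial.eval_map_algebraMap, aeval_FG, zero_pow (by omega : q ^ 2 - 1 ≠ 0),
        zero_pow (by omega : q - 1 ≠ 0)]
      ring
    rw [h2] at h1
    rw [h1]
    congr 1
    refine Multiset.map_congr rfl fun r _ => ?_
    simp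
  have hcard : s.card = q ^ 2 - 1 := by
    rw [← hdeg, ← Polynomial.natDegree_map (algebraMap (RatFunc k) L), hs]
    exact hsp.natDegree_eq_card_roots.symm
  have hs0 : s.map (0 - ·) ≠ 0 := by
    intro h
    have := congrArg Multiset.card h
    rw [Multiset.card_map, hcard, Multiset.card_zero] at this
    omega
  have hroot : ∀ r ∈ s, r ∈ Vr k q L ∧ r ≠ 0 := by
    intro r hr
    have h1 : r ∈ (FG k q).rootSet L := by
      rw [Polynomial.rootSet_def, Finset.mem_coe, Multiset.mem_toFinset, Polynomial.aroots_def]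
      exact hr
    refine ⟨(mem_Vr hq r).2 (Or.inr h1), ?_⟩
    rintro rfl
    have h2 := (Polynomial.mem_rootSet.1 h1).2
    rw [aeval_FG, zero_pow (by omega : q ^ 2 - 1 ≠ 0), zero_pow (by omega : q - 1 ≠ 0)] at h2
    simp at h2
  constructor
  · by_contra hno
    push Not at hno
    have h1 : ∀ r ∈ s.map (0 - ·), 1 < A.valuation r := by
      intro r hr
      obtain ⟨t, ht, rfl⟩ := Multiset.mem_map.1 hr
      obtain ⟨h2, h3⟩ := hroot t ht
      rcases hval t h2 h3 with h4 | h4
      · exact absurd h4 (hno t h2 h3)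
      · rw [zero_sub, Valuation.map_neg]
        rw [← A.valuation_le_one_iff, not_le] at h4
        exact h4
    have h2 := DBas_gt (A := A) _ hs0 h1
    rw [hone, map_one] at h2
    exact lt_irrefl _ h2
  · by_contra hno
    push Not at hno
    have h1 : ∀ r ∈ s.map (0 - ·), A.valuation r < 1 := by
      intro r hr
      obtain ⟨t, ht, rfl⟩ := Multiset.mem_map.1 hr
      obtain ⟨h2, h3⟩ := hroot t ht
      rcases hval t h2 h3 with h4 | h4
      · rw [zero_sub, Valuation.map_neg]
        exact (ValuationSubring.mem_nonunits_iff A).1 h4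
      · exact absurd (hno t h2) h4
    have h2 := DBas_lt (A := A) _ hs0 h1
    rw [hone, map_one] at h2
    exact lt_irrefl _ h2

theorem prf_DBas (hIrr : DIrr) (hVal : DVal) : DBas := by
  intro p _ k _ _ F _ _ ι L _ _ _ A hA
  classical
  have _inst : Fintype F := Fintype.ofFinite F
  have hq : 2 ≤ Nat.card F := Finite.one_lt_card
  have hFp : CharP F p := ι.charP ι.injective p
  have hLp : CharP L p := charP_of_injective_ringHom (cc k L).injective p
  obtain ⟨n, hn, hcard⟩ := FiniteField.card F p
  have hqn : Nat.card F = p ^ (n : ℕ) := by rw [Nat.card_eq_fintype_card, hcard]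
  have hq0 : ((Nat.card F : ℕ) : k) = 0 := by
    rw [hqn, Nat.cast_pow, CharP.cast_eq_zero, zero_pow n.ne_zero]
  obtain ⟨hm, hdeg, -, -⟩ := hIrr k (Nat.card F) hq hq0
  obtain ⟨⟨w, hwV, hw0, hwA⟩, v, hvV, hvA⟩ := DBas_two hq A hm hdeg
    (fun y hy hy0 => (hVal k (Nat.card F) hq L A hA y hy hy0).imp (fun h => h.1) (fun h => h.1))
  have hpow : ∀ a : F, ι a ^ Nat.card F = ι a := by
    intro a
    rw [← map_pow, Nat.card_eq_fintype_card, FiniteField.pow_card]
  have hpow2 : ∀ a : F, ι a ^ (Nat.card F ^ 2) = ι a := by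
    intro a
    rw [pow_two, pow_mul, hpow, hpow]
  -- closed under addition
  have hadd : ∀ y ∈ Vr k (Nat.card F) L, ∀ z ∈ Vr k (Nat.card F) L,
      y + z ∈ Vr k (Nat.card F) L := by
    intro y hy z hz
    have h1 : (y + z) ^ Nat.card F = y ^ Nat.card F + z ^ Nat.card F := by
      rw [hqn]
      exact add_pow_char_pow y z p n
    have h2 : (y + z) ^ (Nat.card F ^ 2) = y ^ (Nat.card F ^ 2) + z ^ (Nat.card F ^ 2) := by
      rw [pow_two, pow_mul, h1, pow_mul, pow_mul, hqn]
      exact add_pow_char_pow _ _ p n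
    change (y + z) ^ (Nat.card F ^ 2) + xx k L * (y + z) ^ Nat.card F + (y + z) = 0
    change y ^ (Nat.card F ^ 2) + xx k L * y ^ Nat.card F + y = 0 at hy
    change z ^ (Nat.card F ^ 2) + xx k L * z ^ Nat.card F + z = 0 at hz
    rw [h1, h2]
    linear_combination hy + hz
  have hsmul : ∀ (a : F), ∀ y ∈ Vr k (Nat.card F) L, cc k L (ι a) * y ∈ Vr k (Nat.card F) L := by
    intro a y hy
    change (cc k L (ι a) * y) ^ (Nat.card F ^ 2) + xx k L * (cc k L (ι a) * y) ^ Nat.card F +
      cc k L (ι a) * y = 0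
    change y ^ (Nat.card F ^ 2) + xx k L * y ^ Nat.card F + y = 0 at hy
    have h1 : cc k L (ι a) ^ Nat.card F = cc k L (ι a) := by rw [← map_pow, hpow]
    have h2 : cc k L (ι a) ^ (Nat.card F ^ 2) = cc k L (ι a) := by rw [← map_pow, hpow2]
    rw [mul_pow, mul_pow, h1, h2]
    linear_combination cc k L (ι a) * hy
  have hv1 : 1 < A.valuation v := by
    have h := hvA
    rw [← A.valuation_le_one_iff, not_le] at h
    exact h
  have hw1 : A.valuation w < 1 := (ValuationSubring.mem_nonunits_iff A).1 hwA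
  have hbig : ∀ a b : F, b ≠ 0 → cc k L (ι a) * w + cc k L (ι b) * v ∉ A := by
    intro a b hb hmem
    have h1 : A.valuation (cc k L (ι b) * v) = A.valuation v := by
      rw [map_mul, DBas_C hA (ι b) (by simpa using hb), one_mul]
    have h2 : A.valuation (cc k L (ι a) * w) < 1 := by
      rw [map_mul]
      refine lt_of_le_of_lt (mul_le_of_le_one_left' ?_) hw1
      exact (A.valuation_le_one_iff _).2 (hA.1 _)
    have h3 : A.valuation (cc k L (ι a) * w + cc k L (ι b) * v) = A.valuation v := by
      rw [← h1]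
      refine Valuation.map_add_eq_of_lt_right _ ?_
      rw [h1]
      exact h2.trans hv1
    have h4 := (A.valuation_le_one_iff _).2 hmem
    rw [h3] at h4
    exact absurd hv1 (not_lt.2 h4)
  have hind : ∀ a b : F, cc k L (ι a) * w + cc k L (ι b) * v = 0 → a = 0 ∧ b = 0 := by
    intro a b hab
    have hb : b = 0 := by
      by_contra hb
      exact hbig a b hb (by rw [hab]; exact A.zero_mem)
    subst hb
    rw [map_zero, map_zero, zero_mul, add_zero, mul_eq_zero] at hab
    refine ⟨?_, rfl⟩
    rcases hab with h | h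
    · exact (map_eq_zero ι).1 ((map_eq_zero (cc k L)).1 h)
    · exact absurd h hw0
  refine ⟨w, v, hwV, hw0, hwA, hvV, hvA, fun a b => hadd _ (hsmul a w hwV) _ (hsmul b v hvV), ?_,
    hind, hbig⟩
  -- span
  obtain ⟨hfin, hle⟩ := DBas_fin hq (L := L) hdeg
  set f : F × F → L := fun t => cc k L (ι t.1) * w + cc k L (ι t.2) * v with hf
  have hinj : Function.Injective f := by
    intro s t hst
    have h1 : cc k L (ι (s.1 - t.1)) * w + cc k L (ι (s.2 - t.2)) * v = 0 := by
      simp only [hf] at hst
      rw [map_sub, map_sub, map_sub, map_sub]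
      linear_combination hst
    obtain ⟨h2, h3⟩ := hind _ _ h1
    exact Prod.ext (sub_eq_zero.1 h2) (sub_eq_zero.1 h3)
  have hsub : Set.range f ⊆ Vr k (Nat.card F) L := by
    rintro _ ⟨t, rfl⟩
    exact hadd _ (hsmul t.1 w hwV) _ (hsmul t.2 v hvV)
  have hrange : (Set.range f).ncard = Nat.card F ^ 2 := by
    rw [← Set.image_univ, Set.ncard_image_of_injective _ hinj, Set.ncard_univ, Nat.card_prod,
      pow_two]
  have heq : Set.range f = Vr k (Nat.card F) L :=
    Set.eq_of_subset_of_ncard_le hsub (by rw [hrange]; exact hle) hfin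
  intro y hy
  rw [← heq] at hy
  obtain ⟨t, ht⟩ := hy
  exact ⟨t.1, t.2, ht.symm⟩

end MP7b0bad.Ad
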