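import Pool.Agent.Work.MP_7b0bad_ag.Ad.Stmts

set_option autoImplicit false

/-!
# Block Ad: the polynomial `Y ^ (q ^ 2 - 1) + x Y ^ (q - 1) + 1` is irreducible and separable
-/

open Polynomial

namespace MP7b0bad.Ad

/-- a general form of the monic and degree statement -/
private theorem DIrr_monic {k A : Type} [Field k] [CommRing A] [Nontrivial A] (φ : k →+* A) (x : A)
    (N D : k[X]) (hN : N.Monic) (hd : D.natDegree < N.natDegree) :
    (N.map φ - C x * D.map φ).Monic ∧ (N.map φ - C x * D.map φ).natDegree = N.natDegree := by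
  have h1 : (C x * D.map φ).natDegree < (N.map φ).natDegree := by
    rw [hN.natDegree_map φ]
    exact ((natDegree_C_mul_le _ _).trans natDegree_map_le).trans_lt hd
  have h2 : (N.map φ).Monic := hN.map φ
  refine ⟨h2.sub_of_left ?_, ?_⟩
  · exact degree_lt_degree h1
  · rw [natDegree_sub_eq_left_of_natDegree_lt h1, hN.natDegree_map φ]

private theorem DIrr_irr {k : Type} [Field k] (N D : k[X]) (hD : D ≠ 0) (hc : IsCoprime N D) :
    Irreducible (N.map (C : k →+* k[X]) - C (X : k[X]) * D.map (C : k →+* k[X])) := by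
  have h1 : Irreducible (C (-D) * X + C N : k[X][X]) :=
    irreducible_C_mul_X_add_C (neg_ne_zero.mpr hD)
      ((IsCoprime.neg_right_iff _ _).mpr hc).symm.isRelPrime
  have h2 : N.map (C : k →+* k[X]) - C (X : k[X]) * D.map (C : k →+* k[X]) =
      Bivariate.swap (R := k) (C (-D) * X + C N) := by
    rw [map_add, map_mul, Bivariate.swap_C, Bivariate.swap_C, Bivariate.swap_Y, Polynomial.map_neg]
    ring
  rw [h2, MulEquiv.irreducible_iff]
  exact h1

private theorem DIrr_pow {R : Type} [CommRing R] (n : ℕ) (h : 1 ≤ n) :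
    (X : R[X]) * derivative (X ^ n : R[X]) = C (n : R) * X ^ n := by
  rw [derivative_X_pow]
  obtain ⟨m, rfl⟩ : ∃ m, n = m + 1 := ⟨n - 1, by omega⟩
  rw [Nat.add_sub_cancel, pow_succ]
  ring

private theorem DIrr_form (k : Type) [Field k] (q : ℕ) :
    FG k q = X ^ (q ^ 2 - 1) + C RatFunc.X * X ^ (q - 1) + 1 := by
  rw [FG, SnT.FF]
  simp only [Polynomial.map_add, Polynomial.map_pow, Polynomial.map_X, Polynomial.map_one,
    Polynomial.map_neg]
  ring

theorem prf_DIrr : DIrr := by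
  intro k _ q hq hq0
  have hqq : q ^ 2 = q * q := sq q
  have hq2 : 2 * q ≤ q ^ 2 := by rw [hqq]; exact Nat.mul_le_mul_right q hq
  have hn1 : q ^ 2 - 1 ≠ 0 := by omega
  have hN1 : (X ^ (q ^ 2 - 1) + 1 : k[X]) = X ^ (q ^ 2 - 1) + C 1 := by rw [C_1]
  have hNm : (X ^ (q ^ 2 - 1) + 1 : k[X]).Monic := by
    rw [hN1]
    exact monic_X_pow_add_C 1 hn1
  have hNd : (X ^ (q ^ 2 - 1) + 1 : k[X]).natDegree = q ^ 2 - 1 := by
    rw [hN1]
    exact natDegree_X_pow_add_C
  have hDm : (X ^ (q - 1) : k[X]).Monic := monic_X_pow (q - 1)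
  have hDd : (-X ^ (q - 1) : k[X]).natDegree = q - 1 := by
    rw [natDegree_neg]
    exact natDegree_X_pow (q - 1)
  have hlt : (-X ^ (q - 1) : k[X]).natDegree < (X ^ (q ^ 2 - 1) + 1 : k[X]).natDegree := by
    rw [hNd, hDd]
    omega
  have hexp : q ^ 2 - 1 = (q ^ 2 - q) + (q - 1) := by omega
  have hcop : IsCoprime (X ^ (q ^ 2 - 1) + 1 : k[X]) (-X ^ (q - 1)) :=
    ⟨1, X ^ (q ^ 2 - q), by rw [hexp, pow_add]; ring⟩
  have hM := DIrr_monic (algebraMap k (RatFunc k)) RatFunc.X _ _ hNm hlt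
  have hM2 := DIrr_monic (C : k →+* k[X]) X _ _ hNm hlt
  have hmap : ((X ^ (q ^ 2 - 1) + 1 : k[X]).map (C : k →+* k[X]) - C (X : k[X]) *
      (-X ^ (q - 1) : k[X]).map (C : k →+* k[X])).map (algebraMap k[X] (RatFunc k)) = FG k q := by
    have hcomp : (algebraMap k[X] (RatFunc k)).comp (C : k →+* k[X]) = algebraMap k (RatFunc k) :=
      (IsScalarTower.algebraMap_eq k k[X] (RatFunc k)).symm
    rw [FG, SnT.FF, Polynomial.map_sub, Polynomial.map_mul, Polynomial.map_C, Polynomial.map_map,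
      Polynomial.map_map, hcomp, RatFunc.algebraMap_X]
  have hirr : Irreducible (FG k q) := by
    rw [← hmap]
    exact (hM2.1.irreducible_iff_irreducible_map_fraction_map).1
      (DIrr_irr _ _ (neg_ne_zero.mpr hDm.ne_zero) hcop)
  refine ⟨hM.1, hM.2.trans hNd, hirr, ?_⟩
  have hq0' : ((q : ℕ) : RatFunc k) = 0 := by
    rw [← map_natCast (algebraMap k (RatFunc k)) q, hq0, map_zero]
  have hc1 : ((q ^ 2 - 1 : ℕ) : RatFunc k) = -1 := by
    rw [Nat.cast_sub (by omega), Nat.cast_pow, hq0', Nat.cast_one]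
    ring
  have hc2 : ((q - 1 : ℕ) : RatFunc k) = -1 := by
    rw [Nat.cast_sub (by omega), hq0', Nat.cast_one]
    ring
  have hder : (X : (RatFunc k)[X]) * derivative (FG k q) = 1 - FG k q := by
    have e1 := DIrr_pow (R := RatFunc k) (q ^ 2 - 1) (by omega)
    have e2 := DIrr_pow (R := RatFunc k) (q - 1) (by omega)
    rw [hc1] at e1
    rw [hc2] at e2
    rw [DIrr_form, derivative_add, derivative_add, derivative_C_mul, derivative_one, add_zero,
      mul_add, e1, mul_left_comm, e2, C_neg, C_1]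
    ring
  refine ⟨1, X, ?_⟩
  rw [hder]
  ring

end MP7b0bad.Ad
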