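import Pool.Agent.Work.MP_7b0bad_ag.Ad.Stmts

set_option autoImplicit false

/-!
# Block Ad, item DMax: the Borel subgroup is maximal in `SL_2`

Every matrix `M` with nonzero lower left entry is `B1 g B2` with upper triangular `B1`, `B2`.
-/

open Polynomial Pointwise Matrix

namespace MP7b0bad.Ad

open MT (Bor2)

theorem prf_DMax : DMax := by
  intro F _ H hB ⟨g, hg, hgB⟩
  have hc : g.1 1 0 ≠ 0 := fun h => hgB h
  rw [eq_top_iff]
  intro M _
  by_cases hc' : M.1 1 0 = 0
  · exact hB hc'
  have hdg : g.1 0 0 * g.1 1 1 - g.1 0 1 * g.1 1 0 = 1 := by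
    have := g.2
    rwa [Matrix.det_fin_two] at this
  have hdM : M.1 0 0 * M.1 1 1 - M.1 0 1 * M.1 1 0 = 1 := by
    have := M.2
    rwa [Matrix.det_fin_two] at this
  set a := g.1 0 0
  set b := g.1 0 1
  set c := g.1 1 0
  set d := g.1 1 1
  set a' := M.1 0 0
  set b' := M.1 0 1
  set c' := M.1 1 0
  set d' := M.1 1 1
  let B1 : SpecialLinearGroup (Fin 2) F := ⟨!![c / c', (a' - c / c' * a) / c; 0, c' / c], by
    rw [Matrix.det_fin_two_of]
    field_simp
    ring⟩
  let B2 : SpecialLinearGroup (Fin 2) F := ⟨!![1, (c / c' * d' - d) / c; 0, 1], by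
    rw [Matrix.det_fin_two_of]
    ring⟩
  have h1 : B1 ∈ H := hB (show B1.1 1 0 = 0 by simp [B1])
  have h2 : B2 ∈ H := hB (show B2.1 1 0 = 0 by simp [B2])
  have hM : M = B1 * g * B2 := by
    apply Subtype.ext
    show M.1 = B1.1 * g.1 * B2.1
    have hge : g.1 = !![a, b; c, d] := by
      ext i j
      fin_cases i <;> fin_cases j <;> rfl
    have hMe : M.1 = !![a', b'; c', d'] := by
      ext i j
      fin_cases i <;> fin_cases j <;> rfl
    have hb' : b' = (a' * d' - 1) / c' := by
      field_simp
      linear_combination -hdM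
    have hb : b = (a * d - 1) / c := by
      field_simp
      linear_combination -hdg
    rw [hge, hMe]
    show !![a', b'; c', d'] = !![c / c', (a' - c / c' * a) / c; 0, c' / c] * !![a, b; c, d] *
      !![1, (c / c' * d' - d) / c; 0, 1]
    rw [Matrix.mul_fin_two, Matrix.mul_fin_two]
    ext i j
    fin_cases i <;> fin_cases j
    · simp
      field_simp
      ring
    · simp
      rw [hb', hb]
      field_simp
      ring
    · simp
      field_simp
    · simp
      field_simp
      ring
  rw [hM]
  exact H.mul_mem (H.mul_mem h1 hg) h2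
end MP7b0bad.Ad
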