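import Pool.Agent.Work.MP_7b0bad_ag.Ad.Stmts
import Pool.Agent.Work.MP_7b0bad_ag.AnT.AOrb

set_option autoImplicit false

/-!
# Item DOrb: the decomposition group is transitive on the additive roots outside `A`
-/

open Polynomial Pointwise Matrix

namespace MP7b0bad.Ad

open SnT (cc xx)

theorem DOrb_Vr {k : Type} [Field k] {L : Type} [Field L] [Algebra (RatFunc k) L] {q : ℕ}
    (σ : L ≃ₐ[RatFunc k] L) {y : L} (hy : y ∈ Vr k q L) : σ y ∈ Vr k q L := by
  have h : y ^ (q ^ 2) + xx k L * y ^ q + y = 0 := hy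
  have hx : σ (xx k L) = xx k L := σ.commutes _
  have h1 := congrArg σ h
  rw [map_add, map_add, map_mul, map_pow, map_pow, hx, map_zero] at h1
  exact h1

theorem DOrb_finite {k : Type} [Field k] {q : ℕ} (hq : 2 ≤ q) {L : Type} [Field L]
    [Algebra (RatFunc k) L] (A : ValuationSubring L) :
    {y : L | y ∈ Vr k q L ∧ y ∉ A}.Finite := by
  refine ((FG k q).rootSet_finite L).subset ?_
  rintro y ⟨h1, h2⟩
  rcases (mem_Vr hq y).1 h1 with h | h
  · exact absurd (h ▸ A.zero_mem) h2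
  · exact h

theorem DOrb_card {k : Type} [Field k] {F : Type} [Field F] [Finite F] (ι : F →+* k) {L : Type}
    [Field L] [Algebra (RatFunc k) L] {A : ValuationSubring L} {w v : L}
    (hC : ∀ c : k, cc k L c ∈ A) (hB : Bs ι (Nat.card F) A w v) :
    {y : L | y ∈ Vr k (Nat.card F) L ∧ y ∉ A}.ncard = Nat.card F ^ 2 - Nat.card F := by
  classical
  have _ft : Fintype F := Fintype.ofFinite F
  have hinj : Function.Injective
      (fun z : F × F => cc k L (ι z.1) * w + cc k L (ι z.2) * v) := by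
    rintro ⟨a, b⟩ ⟨a', b'⟩ h
    have h0 : cc k L (ι a) * w + cc k L (ι b) * v = cc k L (ι a') * w + cc k L (ι b') * v := h
    have h1 : cc k L (ι (a - a')) * w + cc k L (ι (b - b')) * v = 0 := by
      rw [map_sub, map_sub, map_sub, map_sub]
      linear_combination h0
    obtain ⟨h2, h3⟩ := hB.ind _ _ h1
    rw [sub_eq_zero.1 h2, sub_eq_zero.1 h3]
  have himg : {y : L | y ∈ Vr k (Nat.card F) L ∧ y ∉ A} =
      (fun z : F × F => cc k L (ι z.1) * w + cc k L (ι z.2) * v) ''
        ((Finset.univ ×ˢ ({0}ᶜ : Finset F) : Finset (F × F)) : Set (F × F)) := by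
    ext y
    constructor
    · rintro ⟨h1, h2⟩
      obtain ⟨a, b, rfl⟩ := hB.span y h1
      refine ⟨(a, b), ?_, rfl⟩
      rw [Finset.mem_coe, Finset.mem_product, Finset.mem_compl, Finset.mem_singleton]
      refine ⟨Finset.mem_univ _, ?_⟩
      rintro (rfl : b = 0)
      apply h2
      rw [map_zero, map_zero, zero_mul, add_zero]
      exact A.mul_mem _ _ (hC _) (A.nonunits_subset hB.wA)
    · rintro ⟨⟨a, b⟩, hb, rfl⟩
      rw [Finset.mem_coe, Finset.mem_product, Finset.mem_compl, Finset.mem_singleton] at hb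
      exact ⟨hB.mem a b, hB.big a b hb.2⟩
  rw [himg, Set.ncard_image_of_injective _ hinj, Set.ncard_coe_finset, Finset.card_product,
    Finset.card_univ, Finset.card_compl, Finset.card_singleton, ← Nat.card_eq_fintype_card, sq,
    Nat.mul_sub, mul_one]

theorem prf_DOrb (hVal : DVal) : DOrb := by
  intro p _ k _ _ _ F _ _ ι L _ _ _ _ _ A w v hA hB y hy hyA y' hy' hyA'
  have hq : 2 ≤ Nat.card F := Finite.one_lt_card
  have hC : ∀ c : k, cc k L c ∈ A := hA.1
  have hq2 : 1 ≤ Nat.card F ^ 2 - Nat.card F := by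
    have : 2 * Nat.card F ≤ Nat.card F ^ 2 := by
      rw [sq]
      exact Nat.mul_le_mul_right _ hq
    omega
  refine AnT.AOrb_gen A hA {y : L | y ∈ Vr k (Nat.card F) L ∧ y ∉ A} (DOrb_finite hq A)
    (Nat.card F ^ 2 - Nat.card F) hq2 (DOrb_card ι hC hB) 1 (Or.inl rfl) ?_ ?_ y ⟨hy, hyA⟩ y'
    ⟨hy', hyA'⟩
  · rintro z ⟨hz, hzA⟩
    rw [zpow_one]
    have hz0 : z ≠ 0 := by
      rintro rfl
      exact hzA A.zero_mem
    rcases hVal k (Nat.card F) hq L A hA z hz hz0 with h | h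
    · exact absurd (A.nonunits_subset h.1) hzA
    · exact h.2
  · rintro σ hσ z ⟨hz, hzA⟩
    refine ⟨DOrb_Vr σ hz, fun h => hzA ?_⟩
    rw [← hσ] at h
    obtain ⟨z1, hz1, hz2⟩ := h
    have h1 : z1 = z := σ.injective hz2
    rw [← h1]
    exact hz1

end MP7b0bad.Ad
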