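import Pool.Agent.Work.MP_7b0bad_ag.Ad.Stmts

set_option autoImplicit false

/-!
# Item DRep: the Galois group acts on the additive roots through `SL_2`
-/

open Polynomial Matrix

namespace MP7b0bad.Ad

open SnT (cc xx)

section
variable {k : Type} [Field k] {F : Type} [Field F] (ι : F →+* k) {L : Type} [Field L]
  [Algebra (RatFunc k) L]

/-- `M` is the matrix of `σ` -/
def DRep_P (w v : L) (σ : L ≃ₐ[RatFunc k] L) (M : Matrix (Fin 2) (Fin 2) F) : Prop :=
  σ w = cc k L (ι (M 0 0)) * w + cc k L (ι (M 1 0)) * v ∧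
    σ v = cc k L (ι (M 0 1)) * w + cc k L (ι (M 1 1)) * v

theorem DRep_cc (σ : L ≃ₐ[RatFunc k] L) (c : k) : σ (cc k L c) = cc k L c :=
  σ.commutes _

theorem DRep_xx (σ : L ≃ₐ[RatFunc k] L) : σ (xx k L) = xx k L :=
  σ.commutes _

theorem DRep_Vr {q : ℕ} (σ : L ≃ₐ[RatFunc k] L) {y : L} (hy : y ∈ Vr k q L) :
    σ y ∈ Vr k q L := by
  have h : y ^ (q ^ 2) + xx k L * y ^ q + y = 0 := hy
  have h1 := congrArg σ h
  rw [map_add, map_add, map_mul, map_pow, map_pow, DRep_xx, map_zero] at h1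
  exact h1

theorem DRep_uniq {q : ℕ} {A : ValuationSubring L} {w v : L} (hB : Bs ι q A w v) {a b a' b' : F}
    (h : cc k L (ι a) * w + cc k L (ι b) * v = cc k L (ι a') * w + cc k L (ι b') * v) :
    a = a' ∧ b = b' := by
  have h1 : cc k L (ι (a - a')) * w + cc k L (ι (b - b')) * v = 0 := by
    rw [map_sub, map_sub, map_sub, map_sub]
    linear_combination h
  obtain ⟨h2, h3⟩ := hB.ind _ _ h1
  exact ⟨sub_eq_zero.1 h2, sub_eq_zero.1 h3⟩

theorem DRep_Puniq {q : ℕ} {A : ValuationSubring L} {w v : L} (hB : Bs ι q A w v)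
    {σ : L ≃ₐ[RatFunc k] L} {M N : Matrix (Fin 2) (Fin 2) F} (hM : DRep_P ι w v σ M)
    (hN : DRep_P ι w v σ N) : M = N := by
  obtain ⟨h1, h2⟩ := DRep_uniq ι hB (hM.1.symm.trans hN.1)
  obtain ⟨h3, h4⟩ := DRep_uniq ι hB (hM.2.symm.trans hN.2)
  ext i j
  fin_cases i <;> fin_cases j
  · exact h1
  · exact h3
  · exact h2
  · exact h4

theorem DRep_Pmul {w v : L} {σ τ : L ≃ₐ[RatFunc k] L} {M N : Matrix (Fin 2) (Fin 2) F}
    (hM : DRep_P ι w v σ M) (hN : DRep_P ι w v τ N) : DRep_P ι w v (σ * τ) (M * N) := by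
  refine ⟨?_, ?_⟩
  · rw [AlgEquiv.mul_apply, hN.1, map_add, map_mul, map_mul, DRep_cc, DRep_cc, hM.1, hM.2,
      Matrix.mul_apply, Matrix.mul_apply, Fin.sum_univ_two, Fin.sum_univ_two]
    simp only [map_add, map_mul]
    ring
  · rw [AlgEquiv.mul_apply, hN.2, map_add, map_mul, map_mul, DRep_cc, DRep_cc, hM.1, hM.2,
      Matrix.mul_apply, Matrix.mul_apply, Fin.sum_univ_two, Fin.sum_univ_two]
    simp only [map_add, map_mul]
    ring

end

/-- the fixed elements of the Frobenius power are the elements of the finite field -/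
theorem DRep_fix {F L : Type} [Field F] [Finite F] [Field L] (J : F →+* L) (t : L)
    (ht : t ^ Nat.card F = t) : ∃ a : F, t = J a := by
  classical
  have _ft : Fintype F := Fintype.ofFinite F
  by_contra hc
  push Not at hc
  have hq : 1 < Nat.card F := Finite.one_lt_card
  have hP : (X ^ Nat.card F - X : L[X]) ≠ 0 := FiniteField.X_pow_card_sub_X_ne_zero L hq
  have hroot : insert t (Finset.univ.image J) ⊆ (X ^ Nat.card F - X : L[X]).roots.toFinset := by
    intro y hy
    rw [Multiset.mem_toFinset, mem_roots hP, IsRoot.def, eval_sub, eval_pow, eval_X, sub_eq_zero]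
    rcases Finset.mem_insert.1 hy with h | h
    · rw [h, ht]
    · obtain ⟨a, -, rfl⟩ := Finset.mem_image.1 h
      rw [← map_pow, Nat.card_eq_fintype_card, FiniteField.pow_card]
  have h1 := Finset.card_le_card hroot
  have h2 : t ∉ Finset.univ.image J := by
    intro h
    obtain ⟨a, -, h3⟩ := Finset.mem_image.1 h
    exact hc a h3.symm
  rw [Finset.card_insert_of_notMem h2, Finset.card_image_of_injective _ J.injective,
    Finset.card_univ, ← Nat.card_eq_fintype_card] at h1
  have h3 := (Multiset.toFinset_card_le (X ^ Nat.card F - X : L[X]).roots).trans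
    (card_roots' (X ^ Nat.card F - X : L[X]))
  rw [FiniteField.X_pow_card_sub_X_natDegree_eq L hq] at h3
  omega

theorem prf_DRep : DRep := by
  intro p _ k _ _ F _ _ ι L _ _ _ A w v hB
  classical
  have _ft : Fintype F := Fintype.ofFinite F
  have hCF : CharP F p := (RingHom.charP_iff ι ι.injective p).2 inferInstance
  have hCL : CharP L p := (RingHom.charP_iff (cc k L) (cc k L).injective p).1 inferInstance
  obtain ⟨n, -, hn⟩ := FiniteField.card F p
  have hqn : Nat.card F = p ^ (n : ℕ) := by rw [Nat.card_eq_fintype_card, hn]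
  let φ : L →+* L := iterateFrobenius L p n
  have hφ : ∀ y : L, φ y = y ^ Nat.card F := fun y => by
    rw [hqn]; exact iterateFrobenius_def p n y
  have hJ : ∀ a : F, φ (cc k L (ι a)) = cc k L (ι a) := by
    intro a
    rw [hφ, ← map_pow, ← map_pow, Nat.card_eq_fintype_card, FiniteField.pow_card]
  have hφφ : ∀ y ∈ Vr k (Nat.card F) L, φ (φ y) = - (xx k L) * φ y - y := by
    intro y hy
    have h : y ^ (Nat.card F ^ 2) + xx k L * y ^ Nat.card F + y = 0 := hy
    rw [hφ, hφ, ← pow_mul, ← sq]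
    linear_combination h
  have hσφ : ∀ (σ : L ≃ₐ[RatFunc k] L) (y : L), σ (φ y) = φ (σ y) := by
    intro σ y
    rw [hφ, hφ, map_pow]
  -- the Moore determinant
  have hδ0 : w * φ v - φ w * v ≠ 0 := by
    intro h0
    have h1 : (v / w) ^ Nat.card F = v / w := by
      rw [← hφ, map_div₀, div_eq_div_iff ((map_ne_zero φ).2 hB.w0) hB.w0]
      linear_combination h0
    obtain ⟨a, ha⟩ := DRep_fix ((cc k L).comp ι) _ h1
    rw [div_eq_iff hB.w0] at ha
    have h2 : cc k L (ι a) * w + cc k L (ι (-1)) * v = 0 := by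
      rw [map_neg, map_neg, map_one, map_one]
      have h3 : v = cc k L (ι a) * w := ha
      linear_combination -h3
    exact one_ne_zero (neg_eq_zero.1 (hB.ind _ _ h2).2)
  have hδφ : φ (w * φ v - φ w * v) = w * φ v - φ w * v := by
    rw [map_sub, map_mul, map_mul, hφφ v hB.vV, hφφ w hB.wV]
    ring
  obtain ⟨e, he⟩ := DRep_fix ((cc k L).comp ι) _ ((hφ _).symm.trans hδφ)
  have hδσ : ∀ σ : L ≃ₐ[RatFunc k] L, σ (w * φ v - φ w * v) = w * φ v - φ w * v := by
    intro σ
    rw [he]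
    exact DRep_cc σ _
  have hex : ∀ σ : L ≃ₐ[RatFunc k] L, ∃ M : SpecialLinearGroup (Fin 2) F,
      DRep_P ι w v σ M.1 := by
    intro σ
    obtain ⟨a, c, h1⟩ := hB.span _ (DRep_Vr σ hB.wV)
    obtain ⟨b, d, h2⟩ := hB.span _ (DRep_Vr σ hB.vV)
    have h3 := hδσ σ
    rw [map_sub, map_mul, map_mul, hσφ, hσφ, h1, h2, map_add, map_add, map_mul, map_mul, map_mul,
      map_mul, hJ, hJ, hJ, hJ] at h3
    have h4 : (cc k L (ι (a * d - b * c)) - 1) * (w * φ v - φ w * v) = 0 := by
      simp only [map_sub, map_mul]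
      linear_combination h3
    have h5 : a * d - b * c = 1 := by
      rcases mul_eq_zero.1 h4 with h | h
      · have h6 : ((cc k L).comp ι) (a * d - b * c) = ((cc k L).comp ι) 1 := by
          rw [map_one]
          exact sub_eq_zero.1 h
        exact ((cc k L).comp ι).injective h6
      · exact absurd h hδ0
    refine ⟨⟨!![a, b; c, d], by rw [Matrix.det_fin_two_of]; exact h5⟩, ?_, ?_⟩
    · exact h1
    · exact h2
  choose ρ hρ using hex
  have hmul : ∀ σ τ, ρ (σ * τ) = ρ σ * ρ τ := by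
    intro σ τ
    apply Subtype.ext
    exact DRep_Puniq ι hB (hρ (σ * τ)) (DRep_Pmul ι (hρ σ) (hρ τ))
  refine ⟨MonoidHom.mk' ρ hmul, ?_, hρ⟩
  rw [injective_iff_map_eq_one]
  intro σ hσ
  have h1 := hρ σ
  have h0 : ρ σ = 1 := hσ
  rw [h0] at h1
  have hw : σ w = w := by
    rw [h1.1]
    simp
  have hv : σ v = v := by
    rw [h1.2]
    simp
  have h2 : ∀ y ∈ (FG k (Nat.card F)).rootSet L, σ y = y := by
    intro y hy
    have h3 : y ∈ Vr k (Nat.card F) L := (mem_Vr Finite.one_lt_card y).2 (Or.inr hy)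
    obtain ⟨a, b, h4⟩ := hB.span y h3
    rw [h4, map_add, map_mul, map_mul, hw, hv, DRep_cc, DRep_cc]
  have h3 : (σ : L →ₐ[RatFunc k] L) = AlgHom.id (RatFunc k) L := by
    refine AlgHom.ext_of_adjoin_eq_top (IsSplittingField.adjoin_rootSet L (FG k (Nat.card F)))
      fun y hy => ?_
    exact h2 y hy
  ext x
  exact DFunLike.congr_fun h3 x

end MP7b0bad.Ad
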