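import Pool.Agent.Work.MP_7b0bad_ag.Ad.Stmts

/-!
# MP_7b0bad, block Ad: finite places are unramified
-/

set_option autoImplicit false

open Polynomial Pointwise

namespace MP7b0bad.Ad

open SnT (cc xx rp)

/-- the polynomial in additive form -/
theorem DUnr_add {R : Type} [CommRing R] {q : ℕ} (hq : 2 ≤ q) (x y : R)
    (h : y ^ (q ^ 2 - 1) + x * y ^ (q - 1) + 1 = 0) : y ^ (q ^ 2) + x * y ^ q + y = 0 := by
  have h1 : y ^ (q ^ 2) = y ^ (q ^ 2 - 1) * y := by
    have : 1 ≤ q ^ 2 := Nat.one_le_pow _ _ (by omega)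
    conv_lhs => rw [← Nat.sub_add_cancel this, pow_succ]
  have h2 : y ^ q = y ^ (q - 1) * y := by
    conv_lhs => rw [← Nat.sub_add_cancel (by omega : 1 ≤ q), pow_succ]
  rw [h1, h2]
  linear_combination y * h

/-- a root of the additive polynomial in the maximal ideal is zero -/
theorem DUnr_zero {R κ : Type} [CommRing R] [IsDomain R] [CommRing κ] [Nontrivial κ]
    (r : R →+* κ) {q : ℕ} (hq : 2 ≤ q) (x z : R) (hz : r z = 0)
    (h : z ^ (q ^ 2) + x * z ^ q + z = 0) : z = 0 := by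
  have h1 : z ^ (q ^ 2) = z ^ (q ^ 2 - 1) * z := by
    have : 1 ≤ q ^ 2 := Nat.one_le_pow _ _ (by omega)
    conv_lhs => rw [← Nat.sub_add_cancel this, pow_succ]
  have h2 : z ^ q = z ^ (q - 1) * z := by
    conv_lhs => rw [← Nat.sub_add_cancel (by omega : 1 ≤ q), pow_succ]
  have h3 : z * (z ^ (q ^ 2 - 1) + x * z ^ (q - 1) + 1) = 0 := by
    rw [h1, h2] at h
    linear_combination h
  rcases mul_eq_zero.1 h3 with h4 | h4
  · exact h4
  · exfalso
    have h5 := congrArg r h4
    have h6 : q ^ 2 - 1 ≠ 0 := by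
      have : 2 ^ 2 ≤ q ^ 2 := Nat.pow_le_pow_left hq 2
      omega
    rw [map_add, map_add, map_mul, map_pow, map_pow, hz, zero_pow h6,
      zero_pow (by omega : q - 1 ≠ 0), mul_zero, zero_add, zero_add, map_one, map_zero] at h5
    exact one_ne_zero h5

/-- the additive polynomial is additive -/
theorem DUnr_sub {R : Type} [CommRing R] (p : ℕ) [Fact p.Prime] [CharP R p] (n : ℕ) (x a b : R)
    (ha : a ^ ((p ^ n) ^ 2) + x * a ^ (p ^ n) + a = 0)
    (hb : b ^ ((p ^ n) ^ 2) + x * b ^ (p ^ n) + b = 0) :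
    (a - b) ^ ((p ^ n) ^ 2) + x * (a - b) ^ (p ^ n) + (a - b) = 0 := by
  rw [← pow_mul p n 2] at ha hb ⊢
  rw [sub_pow_char_pow, sub_pow_char_pow]
  linear_combination ha - hb

theorem prf_DUnr : DUnr := by
  intro p _ k _ _ n hn L _ _ _ A hk hx
  have hq : 2 ≤ p ^ n := by
    calc 2 ≤ p := (Fact.out : p.Prime).two_le
      _ = p ^ 1 := (pow_one p).symm
      _ ≤ p ^ n := Nat.pow_le_pow_right (Fact.out : p.Prime).pos hn
  set q := p ^ n with hqdef
  have hq2 : q < q ^ 2 := by nlinarith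
  let cA : k →+* A := (cc k L).codRestrict A.toSubring hk
  let xA : A := ⟨xx k L, hx⟩
  let FR : A[X] := X ^ (q ^ 2 - 1) + (C xA * X ^ (q - 1) + 1)
  have hFm : FR.Monic := by
    refine monic_X_pow_add ?_
    refine (degree_add_le _ _).trans_lt (max_lt ?_ ?_)
    · exact (degree_C_mul_X_pow_le _ _).trans_lt (by exact_mod_cast (by omega : q - 1 < q ^ 2 - 1))
    · rw [← C_1]
      exact degree_C_le.trans_lt (by exact_mod_cast (by omega : 0 < q ^ 2 - 1))
  have hev : ∀ y : L, aeval y (FG k q) = 0 → FR.eval₂ (algebraMap A L) y = 0 := by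
    intro y hy
    rw [aeval_FG] at hy
    simp only [FR, eval₂_add, eval₂_mul, eval₂_C, eval₂_pow, eval₂_X, eval₂_one]
    have hxx : (algebraMap A L) xA = xx k L := rfl
    rw [hxx]
    linear_combination hy
  have hmem : ∀ y : L, aeval y (FG k q) = 0 → y ∈ A := by
    intro y hy
    obtain ⟨z, hz⟩ := IsIntegrallyClosed.isIntegral_iff.1
      (show IsIntegral A y from ⟨FR, hFm, hev y hy⟩)
    rw [← hz]
    exact z.2
  have hroot : ∀ y : A, aeval (y : L) (FG k q) = 0 → y ^ (q ^ 2) + xA * y ^ q + y = 0 := by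
    intro y hy
    rw [aeval_FG] at hy
    have h1 := DUnr_add hq (xx k L) (y : L) hy
    apply Subtype.ext
    exact h1
  have hcharA : CharP A p := charP_of_injective_ringHom cA.injective p
  rw [Subgroup.eq_bot_iff_forall]
  intro s hs
  have hs' : ∀ r : A, IsLocalRing.residue A (s • r) = IsLocalRing.residue A r := by
    intro r
    rw [IsLocalRing.ResidueField.residue_smul]
    have h3 : MulSemiringAction.toRingAut (A.decompositionSubgroup (RatFunc k))
        (IsLocalRing.ResidueField A) s = 1 := hs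
    have h4 := RingEquiv.congr_fun h3 (IsLocalRing.residue A r)
    exact h4
  have hfix : ∀ y ∈ (FG k q).rootSet L, (s : L ≃ₐ[RatFunc k] L) y = y := by
    intro y hy
    have h1 : aeval y (FG k q) = 0 := (mem_rootSet.1 hy).2
    have h2 : aeval ((s : L ≃ₐ[RatFunc k] L) y) (FG k q) = 0 :=
      (mem_rootSet.1 (SnT.rp_mem _ (s : L ≃ₐ[RatFunc k] L) y hy)).2
    let yA : A := ⟨y, hmem y h1⟩
    have hsy : ((s • yA : A) : L) = (s : L ≃ₐ[RatFunc k] L) y := rfl
    have h3 : (s • yA - yA : A) = 0 := by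
      refine DUnr_zero (IsLocalRing.residue A) hq xA _ (by rw [map_sub, hs', sub_self]) ?_
      exact DUnr_sub p n xA _ _ (hroot _ (by rw [hsy]; exact h2)) (hroot yA h1)
    have h4 : (s • yA : A) = yA := sub_eq_zero.1 h3
    rw [← hsy, h4]
  apply Subtype.ext
  have h5 : ((s : L ≃ₐ[RatFunc k] L) : L →ₐ[RatFunc k] L) = AlgHom.id (RatFunc k) L := by
    refine AlgHom.ext_of_adjoin_eq_top (IsSplittingField.adjoin_rootSet L (FG k q)) ?_
    intro y hy
    exact hfix y hy
  ext y
  exact DFunLike.congr_fun h5 y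

end MP7b0bad.Ad
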