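import Pool.Agent.Work.MP_7b0bad_ag.Ad.Stmts

set_option autoImplicit false

/-!
# Block Ad, item DVal (helper59): values of the roots
-/

open Polynomial Pointwise

namespace MP7b0bad.Ad

open SnT (cc xx)

theorem DVal_root {k : Type} [Field k] {q : ℕ} (hq : 2 ≤ q) {L : Type} [Field L]
    [Algebra (RatFunc k) L] {y : L} (hy : y ∈ Vr k q L) (h0 : y ≠ 0) :
    y ^ (q ^ 2 - 1) + 1 = -(xx k L * y ^ (q - 1)) := by
  have h1 : y ^ (q ^ 2) = y ^ (q ^ 2 - 1) * y := by
    have : 1 ≤ q ^ 2 := Nat.one_le_pow _ _ (by omega)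
    conv_lhs => rw [← Nat.sub_add_cancel this, pow_succ]
  have h2 : y ^ q = y ^ (q - 1) * y := by
    conv_lhs => rw [← Nat.sub_add_cancel (by omega : 1 ≤ q), pow_succ]
  have h3 : y ^ (q ^ 2) + xx k L * y ^ q + y = 0 := hy
  have h4 : y * (y ^ (q ^ 2 - 1) + xx k L * y ^ (q - 1) + 1) = 0 := by
    rw [← h3, h1, h2]
    ring
  have h5 := (mul_eq_zero.1 h4).resolve_left h0
  linear_combination h5

theorem prf_DVal : DVal := by
  intro k _ q hq L _ _ A hA y hy h0
  have hr := DVal_root hq hy h0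
  have hx : 1 < A.valuation (xx k L) := by
    have h := hA.2
    rw [← A.valuation_le_one_iff, not_le] at h
    exact h
  have hq2 : q ^ 2 - 1 = (q ^ 2 - q) + (q - 1) := by
    have : q ≤ q ^ 2 := by nlinarith
    omega
  have hne : q ^ 2 - 1 ≠ 0 := by
    have : 2 ^ 2 ≤ q ^ 2 := Nat.pow_le_pow_left hq 2
    omega
  have hv := congrArg A.valuation hr
  rw [Valuation.map_neg, map_mul, map_pow] at hv
  rcases lt_trichotomy (A.valuation y) 1 with h | h | h
  · left
    refine ⟨(ValuationSubring.mem_nonunits_iff A).2 h, ?_⟩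
    have h2 : A.valuation (y ^ (q ^ 2 - 1)) < A.valuation 1 := by
      rw [map_one, map_pow]
      exact pow_lt_one₀ zero_le h hne
    rw [Valuation.map_add_eq_of_lt_right _ h2, map_one] at hv
    rw [mul_comm]
    exact hv.symm
  · exfalso
    rw [h, one_pow, mul_one] at hv
    have h2 : A.valuation (y ^ (q ^ 2 - 1) + 1) ≤ 1 := by
      refine Valuation.map_add_le _ ?_ ?_
      · rw [map_pow, h, one_pow]
      · rw [map_one]
    rw [hv] at h2
    exact absurd h2 (not_le.2 hx)
  · right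
    refine ⟨fun hm => absurd ((A.valuation_le_one_iff _).2 hm) (not_le.2 h), ?_⟩
    have h2 : A.valuation 1 < A.valuation (y ^ (q ^ 2 - 1)) := by
      rw [map_one, map_pow]
      exact one_lt_pow₀ h hne
    rw [Valuation.map_add_eq_of_lt_left _ h2, map_pow, hq2, pow_add] at hv
    exact mul_right_cancel₀ (pow_ne_zero _ (zero_lt_one.trans h).ne') hv

end MP7b0bad.Ad
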