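import Pool.Agent.Work.MP_7b0bad_ag.Ad.Stmts

set_option autoImplicit false

/-!
# Block Ad, item S2N: a 2-group in `SL_2(F)`, characteristic 2, with an element of odd order
-/

open Matrix

namespace MP7b0bad.Ad

open MT (h2 u2 Nz)

theorem S2N_ext {F : Type} [Field F] {A B : SpecialLinearGroup (Fin 2) F}
    (h00 : A.1 0 0 = B.1 0 0) (h01 : A.1 0 1 = B.1 0 1) (h10 : A.1 1 0 = B.1 1 0)
    (h11 : A.1 1 1 = B.1 1 1) : A = B := by
  apply Subtype.ext
  ext i j
  fin_cases i <;> fin_cases j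
  · exact h00
  · exact h01
  · exact h10
  · exact h11

theorem S2N_mul {F : Type} [Field F] (A B : SpecialLinearGroup (Fin 2) F) (i j : Fin 2) :
    (A * B).1 i j = A.1 i 0 * B.1 0 j + A.1 i 1 * B.1 1 j := by
  change (A.1 * B.1) i j = _
  rw [Matrix.mul_apply, Fin.sum_univ_two]

theorem S2N_u2_mul {F : Type} [Field F] (a b : F) : u2 a * u2 b = u2 (a + b) := by
  apply S2N_ext <;> rw [S2N_mul] <;> simp [u2, add_comm]

theorem S2N_u2_zero {F : Type} [Field F] : u2 (0 : F) = 1 := by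
  apply S2N_ext <;> simp [u2]

theorem S2N_u2_inv {F : Type} [Field F] (a : F) : (u2 a)⁻¹ = u2 (-a) := by
  rw [inv_eq_iff_mul_eq_one, S2N_u2_mul, add_neg_cancel, S2N_u2_zero]

theorem S2N_u2_inj {F : Type} [Field F] {a b : F} (h : u2 a = u2 b) : a = b := by
  have h1 : (u2 a).1 0 1 = (u2 b).1 0 1 := by rw [h]
  simpa [u2] using h1

theorem S2N_h2_mul {F : Type} [Field F] (r s : Fˣ) : h2 r * h2 s = h2 (r * s) := by
  apply S2N_ext <;> rw [S2N_mul] <;> simp [h2, mul_comm]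

theorem S2N_h2_u2 {F : Type} [Field F] (r : Fˣ) (a : F) :
    h2 r * u2 a * (h2 r)⁻¹ = u2 ((r : F) ^ 2 * a) := by
  rw [mul_inv_eq_iff_eq_mul]
  have hr : (r : F) ≠ 0 := r.ne_zero
  apply S2N_ext <;> rw [S2N_mul, S2N_mul]
  · simp [h2, u2]
  · simp [h2, u2]
    field_simp
  · simp [h2, u2]
  · simp [h2, u2]

theorem S2N_mk {F : Type} [Field F] (y : SpecialLinearGroup (Fin 2) F) (h0 : y.1 0 0 = 1)
    (h1 : y.1 1 0 = 0) : y = u2 (y.1 0 1) := by
  have hd := y.2
  rw [Matrix.det_fin_two, h0, h1, one_mul, mul_zero, sub_zero] at hd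
  apply S2N_ext
  · simp [u2, h0]
  · simp [u2]
  · simp [u2, h1]
  · simp [u2, hd]

theorem S2N_card {F : Type} [Field F] [Finite F] [CharP F 2] :
    ∃ n : ℕ, Nat.card F = 2 ^ (n + 1) := by
  have := Fintype.ofFinite F
  obtain ⟨n, -, hn⟩ := FiniteField.card F 2
  refine ⟨(n : ℕ) - 1, ?_⟩
  rw [Nat.card_eq_fintype_card, hn, Nat.sub_add_cancel n.pos]

/-- the 2-group fixes a nonzero vector -/
theorem S2N_fix {F : Type} [Field F] [Finite F] [CharP F 2]
    (P : Subgroup (SpecialLinearGroup (Fin 2) F)) (hP : IsPGroup 2 P) :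
    ∃ v : Fin 2 → F, v ≠ 0 ∧ ∀ x ∈ P, x.1 *ᵥ v = v := by
  haveI : Fact (Nat.Prime 2) := ⟨Nat.prime_two⟩
  letI act : MulAction P (Fin 2 → F) :=
    { smul := fun x v => x.1.1 *ᵥ v
      one_smul := fun v => by
        change (1 : Matrix (Fin 2) (Fin 2) F) *ᵥ v = v
        exact Matrix.one_mulVec v
      mul_smul := fun x y v => by
        change (x.1.1 * y.1.1) *ᵥ v = x.1.1 *ᵥ (y.1.1 *ᵥ v)
        rw [Matrix.mulVec_mulVec] }
  have hc : 2 ∣ Nat.card (Fin 2 → F) := by
    obtain ⟨n, hn⟩ := S2N_card (F := F)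
    rw [Nat.card_fun, hn]
    refine Dvd.dvd.pow ?_ (by simp)
    exact dvd_pow_self 2 (Nat.succ_ne_zero n)
  have h0 : (0 : Fin 2 → F) ∈ MulAction.fixedPoints P (Fin 2 → F) := by
    intro x
    change x.1.1 *ᵥ (0 : Fin 2 → F) = 0
    exact Matrix.mulVec_zero _
  obtain ⟨v, hv, hne⟩ := hP.exists_fixed_point_of_prime_dvd_card_of_fixed_point
    (Fin 2 → F) hc h0
  refine ⟨v, fun h => hne h.symm, fun x hx => ?_⟩
  exact hv ⟨x, hx⟩

/-- a matrix with prescribed nonzero first column -/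
theorem S2N_col {F : Type} [Field F] (v : Fin 2 → F) (hv : v ≠ 0) :
    ∃ g : SpecialLinearGroup (Fin 2) F, g.1 0 0 = v 0 ∧ g.1 1 0 = v 1 := by
  by_cases h : v 0 = 0
  · have h1 : v 1 ≠ 0 := by
      intro h1
      apply hv
      funext i
      fin_cases i
      · exact h
      · exact h1
    refine ⟨⟨!![0, -(v 1)⁻¹; v 1, 0], by simp [Matrix.det_fin_two, h1]⟩, ?_, ?_⟩
    · simp [h]
    · simp
  · refine ⟨⟨!![v 0, 0; v 1, (v 0)⁻¹], by simp [Matrix.det_fin_two, h]⟩, ?_, ?_⟩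
    · simp
    · simp

/-- after a conjugation the group consists of unitriangular matrices -/
theorem S2N_conj {F : Type} [Field F] [Finite F] [CharP F 2]
    (P : Subgroup (SpecialLinearGroup (Fin 2) F)) (hP : IsPGroup 2 P) :
    ∃ g : SpecialLinearGroup (Fin 2) F, ∀ x ∈ P, ∃ a : F, x = g * u2 a * g⁻¹ := by
  obtain ⟨v, hv, hf⟩ := S2N_fix P hP
  obtain ⟨g, h0, h1⟩ := S2N_col v hv
  refine ⟨g, fun x hx => ?_⟩
  set y : SpecialLinearGroup (Fin 2) F := g⁻¹ * x * g with hy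
  have hgy : g * y = x * g := by rw [hy]; group
  have hx := hf x hx
  have e0 : (x * g).1 0 0 = g.1 0 0 := by
    rw [S2N_mul, h0, h1]
    have := congrFun hx 0
    rw [Matrix.mulVec, dotProduct, Fin.sum_univ_two] at this
    exact this
  have e1 : (x * g).1 1 0 = g.1 1 0 := by
    rw [S2N_mul, h0, h1]
    have := congrFun hx 1
    rw [Matrix.mulVec, dotProduct, Fin.sum_univ_two] at this
    exact this
  rw [← hgy, S2N_mul] at e0 e1
  have hd := g.2
  rw [Matrix.det_fin_two] at hd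
  have hy0 : y.1 0 0 = 1 := by
    linear_combination (g.1 1 1) * e0 - (g.1 0 1) * e1 + (1 - y.1 0 0) * hd
  have hy1 : y.1 1 0 = 0 := by
    linear_combination (g.1 0 0) * e1 - (g.1 1 0) * e0 - (y.1 1 0) * hd
  refine ⟨y.1 0 1, ?_⟩
  rw [← S2N_mk y hy0 hy1, hgy]
  group

/-- the case of a group of unitriangular matrices -/
theorem S2N_unip {F : Type} [Field F] [Finite F] [CharP F 2]
    (P : Subgroup (SpecialLinearGroup (Fin 2) F)) (c : SpecialLinearGroup (Fin 2) F)
    (hc2 : ¬ 2 ∣ orderOf c) (hcP : ∀ x ∈ P, c * x * c⁻¹ ∈ P) (hne : P ≠ ⊥)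
    (hU : ∀ x ∈ P, ∃ a : F, x = u2 a) :
    ∃ (F' : Subfield F) (g : SpecialLinearGroup (Fin 2) F) (s : F'ˣ),
    (∀ b : F', g * SpecialLinearGroup.map F'.subtype (u2 b) * g⁻¹ ∈ P) ∧
    g * SpecialLinearGroup.map F'.subtype (h2 s) * g⁻¹ = c := by
  classical
  -- a nontrivial element
  obtain ⟨a0, ha0, ha0P⟩ : ∃ a : F, a ≠ 0 ∧ u2 a ∈ P := by
    obtain ⟨⟨x, hx⟩, hx0⟩ := Subgroup.ne_bot_iff_exists_ne_one.1 hne
    have hx1 : x ≠ 1 := fun h => hx0 (Subtype.ext h)
    obtain ⟨a, rfl⟩ := hU x hx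
    exact ⟨a, fun h => hx1 (by rw [h, S2N_u2_zero]), hx⟩
  -- `c` is upper triangular
  have hr : c.1 1 0 = 0 := by
    obtain ⟨b, hb⟩ := hU _ (hcP _ ha0P)
    rw [mul_inv_eq_iff_eq_mul] at hb
    have h11 : (c * u2 a0).1 1 1 = (u2 b * c).1 1 1 := by rw [hb]
    rw [S2N_mul, S2N_mul] at h11
    simp [u2] at h11
    rcases h11 with h | h
    · exact h
    · exact absurd h ha0
  have hdet : c.1 0 0 * c.1 1 1 = 1 := by
    have hd := c.2
    rw [Matrix.det_fin_two, hr, mul_zero, sub_zero] at hd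
    exact hd
  let l : Fˣ := ⟨c.1 0 0, c.1 1 1, hdet, by rw [mul_comm]; exact hdet⟩
  have hl : (l : F) = c.1 0 0 := rfl
  have hl' : ((l⁻¹ : Fˣ) : F) = c.1 1 1 := rfl
  -- `c` is conjugate to a diagonal matrix by an element of `U2`
  obtain ⟨t, ht⟩ : ∃ t : F, c = u2 t * h2 l * (u2 t)⁻¹ := by
    by_cases h1 : c.1 0 0 = 1
    · have h11 : c.1 1 1 = 1 := by rw [h1, one_mul] at hdet; exact hdet
      have hcu : c = u2 (c.1 0 1) := S2N_mk c h1 hr
      have hsq : c ^ 2 = 1 := by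
        rw [hcu, sq, S2N_u2_mul, CharTwo.add_self_eq_zero, S2N_u2_zero]
      have hc1 : c = 1 := by
        have hdv : orderOf c ∣ 2 := orderOf_dvd_of_pow_eq_one hsq
        rcases (Nat.dvd_prime Nat.prime_two).1 hdv with h | h
        · exact orderOf_eq_one_iff.1 h
        · exact absurd (by rw [h]) hc2
      refine ⟨0, ?_⟩
      rw [S2N_u2_zero, one_mul, inv_one, mul_one]
      apply S2N_ext
      · simp [h2, hl]
      · rw [hc1]; simp [h2]
      · rw [hc1]; simp [h2]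
      · simp [h2, hl']
    · have hne1 : c.1 1 1 - c.1 0 0 ≠ 0 := by
        intro h
        apply h1
        have e : c.1 1 1 = c.1 0 0 := sub_eq_zero.1 h
        rw [e] at hdet
        have h2' : (c.1 0 0 + 1) ^ 2 = 0 := by
          rw [CharTwo.add_sq, one_pow, sq, hdet]
          exact CharTwo.add_self_eq_zero 1
        have h3 : c.1 0 0 + 1 = 0 := by
          exact pow_eq_zero_iff (two_ne_zero) |>.1 h2'
        have h4 : c.1 0 0 + 1 = (1 : F) + 1 := by rw [h3, CharTwo.add_self_eq_zero]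
        exact add_right_cancel h4
      refine ⟨c.1 0 1 / (c.1 1 1 - c.1 0 0), ?_⟩
      rw [eq_mul_inv_iff_mul_eq]
      apply S2N_ext <;> rw [S2N_mul, S2N_mul]
      · simp [h2, u2, hl]
      · simp [h2, u2, hl']
        field_simp
        ring
      · simp [h2, u2, hr]
      · simp [h2, u2, hr, hl']
  -- the additive group `M`
  have hMadd : ∀ a b : F, u2 a ∈ P → u2 b ∈ P → u2 (a + b) ∈ P := by
    intro a b ha hb
    rw [← S2N_u2_mul]
    exact P.mul_mem ha hb
  have hMneg : ∀ a : F, u2 a ∈ P → u2 (-a) ∈ P := by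
    intro a ha
    rw [← S2N_u2_inv]
    exact P.inv_mem ha
  have hM0 : u2 (0 : F) ∈ P := by rw [S2N_u2_zero]; exact P.one_mem
  have hMl : ∀ a : F, u2 a ∈ P → u2 ((l : F) ^ 2 * a) ∈ P := by
    intro a ha
    have h := hcP _ ha
    have e : c * u2 a * c⁻¹ = u2 ((l : F) ^ 2 * a) := by
      have e1 : (u2 t)⁻¹ * u2 a * u2 t = u2 a := by
        rw [S2N_u2_inv, S2N_u2_mul, S2N_u2_mul]
        congr 1
        ring
      have e2 : u2 t * u2 ((l : F) ^ 2 * a) * (u2 t)⁻¹ = u2 ((l : F) ^ 2 * a) := by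
        rw [S2N_u2_inv, S2N_u2_mul, S2N_u2_mul]
        congr 1
        ring
      calc c * u2 a * c⁻¹
          = u2 t * (h2 l * ((u2 t)⁻¹ * u2 a * u2 t) * (h2 l)⁻¹) * (u2 t)⁻¹ := by
            conv_lhs => rw [ht]
            group
        _ = u2 t * u2 ((l : F) ^ 2 * a) * (u2 t)⁻¹ := by rw [e1, S2N_h2_u2]
        _ = _ := e2
    rw [← e]
    exact h
  -- the subfield of multipliers
  have hpow : ∀ x : F, (∀ a : F, u2 a ∈ P → u2 (x * a) ∈ P) → ∀ n : ℕ, ∀ a : F, u2 a ∈ P →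
      u2 (x ^ n * a) ∈ P := by
    intro x hx n
    induction n with
    | zero => intro a ha; rw [pow_zero, one_mul]; exact ha
    | succ n ih =>
      intro a ha
      rw [pow_succ', mul_assoc]
      exact hx _ (ih a ha)
  obtain ⟨m, hm⟩ := S2N_card (F := F)
  have hfrob : ∀ x : F, x ^ (2 ^ (m + 1)) = x := by
    intro x
    have := Fintype.ofFinite F
    have h := FiniteField.pow_card x
    rw [← Nat.card_eq_fintype_card, hm] at h
    exact h
  let F' : Subfield F :=
    { carrier := {x : F | ∀ a : F, u2 a ∈ P → u2 (x * a) ∈ P}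
      mul_mem' := by
        intro x y hx hy a ha
        rw [mul_assoc]
        exact hx _ (hy a ha)
      one_mem' := by
        intro a ha
        rw [one_mul]
        exact ha
      add_mem' := by
        intro x y hx hy a ha
        rw [add_mul]
        exact hMadd _ _ (hx a ha) (hy a ha)
      zero_mem' := by
        intro a ha
        rw [zero_mul]
        exact hM0
      neg_mem' := by
        intro x hx a ha
        rw [neg_mul]
        exact hMneg _ (hx a ha)
      inv_mem' := by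
        intro x hx
        by_cases h0 : x = 0
        · rw [h0, _root_.inv_zero]
          intro a ha
          rw [zero_mul]
          exact hM0
        · have hx2 : x⁻¹ = x ^ (2 ^ (m + 1) - 2) := by
            have h2 : 2 ≤ 2 ^ (m + 1) := by
              calc 2 = 2 ^ 1 := (pow_one 2).symm
                _ ≤ 2 ^ (m + 1) := Nat.pow_le_pow_right (by norm_num) (by omega)
            have h3 : x ^ (2 ^ (m + 1) - 2) * x ^ 2 = x := by
              rw [← pow_add, Nat.sub_add_cancel h2]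
              exact hfrob x
            have h4 : x ^ (2 ^ (m + 1) - 2) * x = 1 := by
              have h5 : (x ^ (2 ^ (m + 1) - 2) * x) * x = 1 * x := by
                rw [one_mul, mul_assoc, ← sq]
                exact h3
              exact mul_right_cancel₀ h0 h5
            exact (eq_inv_of_mul_eq_one_left h4).symm
          rw [hx2]
          exact hpow x hx _ }
  have hF' : ∀ x : F, x ∈ F' ↔ ∀ a : F, u2 a ∈ P → u2 (x * a) ∈ P := fun x => Iff.rfl
  have hlF : (l : F) ∈ F' := by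
    have h1 : ((l : F) ^ 2) ∈ F' := (hF' _).2 hMl
    have h2 : (l : F) = ((l : F) ^ 2) ^ (2 ^ m) := by
      rw [← pow_mul, ← pow_succ']
      exact (hfrob _).symm
    rw [h2]
    exact F'.pow_mem h1 _
  have hlF2 : ((l⁻¹ : Fˣ) : F) ∈ F' := by
    rw [Units.val_inv_eq_inv_val]
    exact F'.inv_mem hlF
  let s : F'ˣ := ⟨⟨(l : F), hlF⟩, ⟨((l⁻¹ : Fˣ) : F), hlF2⟩, Subtype.ext (Units.mul_inv l),
    Subtype.ext (Units.inv_mul l)⟩
  -- the square root of `a0`
  obtain ⟨r, hr2⟩ : ∃ r : Fˣ, (r : F) ^ 2 = a0 := by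
    have h1 : (a0 ^ (2 ^ m)) ^ 2 = a0 := by
      rw [← pow_mul, ← pow_succ]
      exact hfrob _
    exact ⟨Units.mk0 (a0 ^ (2 ^ m)) (pow_ne_zero _ ha0), h1⟩
  have hmu : ∀ b : F', SpecialLinearGroup.map F'.subtype (u2 b) = u2 (b : F) := by
    intro b
    apply S2N_ext <;> simp [u2, SpecialLinearGroup.map]
  have hmh : SpecialLinearGroup.map F'.subtype (h2 s) = h2 l := by
    apply S2N_ext
    · simp [h2, SpecialLinearGroup.map, s]
    · simp [h2, SpecialLinearGroup.map]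
    · simp [h2, SpecialLinearGroup.map]
    · simp [h2, SpecialLinearGroup.map]
      rfl
  refine ⟨F', u2 t * h2 r, s, ?_, ?_⟩
  · intro b
    rw [hmu]
    have e : u2 t * h2 r * u2 (b : F) * (u2 t * h2 r)⁻¹ = u2 ((b : F) * a0) := by
      calc u2 t * h2 r * u2 (b : F) * (u2 t * h2 r)⁻¹
          = u2 t * (h2 r * u2 (b : F) * (h2 r)⁻¹) * (u2 t)⁻¹ := by group
        _ = u2 t * u2 ((r : F) ^ 2 * b) * (u2 t)⁻¹ := by rw [S2N_h2_u2]
        _ = u2 ((b : F) * a0) := by
          rw [S2N_u2_inv, S2N_u2_mul, S2N_u2_mul, hr2]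
          congr 1
          ring
    rw [e]
    exact (hF' _).1 b.2 a0 ha0P
  · rw [hmh]
    have e : h2 r * h2 l * (h2 r)⁻¹ = h2 l := by
      rw [S2N_h2_mul, mul_comm r l, ← S2N_h2_mul, mul_inv_cancel_right]
    calc u2 t * h2 r * h2 l * (u2 t * h2 r)⁻¹
        = u2 t * (h2 r * h2 l * (h2 r)⁻¹) * (u2 t)⁻¹ := by group
      _ = c := by rw [e, ← ht]

theorem prf_S2N : S2N := by
  intro F _ _ _ P c hN hne
  obtain ⟨hP, hc2, hcP⟩ := hN
  obtain ⟨g, hg⟩ := S2N_conj P hP
  let φ : SpecialLinearGroup (Fin 2) F →* SpecialLinearGroup (Fin 2) F :=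
    (MulAut.conj g).toMonoidHom
  have hφ : ∀ x, φ x = g * x * g⁻¹ := fun x => rfl
  have hφi : Function.Injective φ := (MulAut.conj g).injective
  have hord : orderOf (g⁻¹ * c * g) = orderOf c := by
    have h := orderOf_injective φ hφi (g⁻¹ * c * g)
    rw [hφ] at h
    have e : g * (g⁻¹ * c * g) * g⁻¹ = c := by group
    rw [e] at h
    exact h.symm
  obtain ⟨F', g', s, h1, h2'⟩ := S2N_unip (P.comap φ) (g⁻¹ * c * g) (by rw [hord]; exact hc2)
    (by
      intro x hx
      rw [Subgroup.mem_comap, hφ] at hx ⊢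
      have e : g * (g⁻¹ * c * g * x * (g⁻¹ * c * g)⁻¹) * g⁻¹ = c * (g * x * g⁻¹) * c⁻¹ := by
        group
      rw [e]
      exact hcP _ hx)
    (by
      intro hb
      apply hne
      rw [eq_bot_iff]
      intro x hx
      have hx' : g⁻¹ * x * g ∈ P.comap φ := by
        rw [Subgroup.mem_comap, hφ]
        have e : g * (g⁻¹ * x * g) * g⁻¹ = x := by group
        rw [e]
        exact hx
      rw [hb, Subgroup.mem_bot] at hx'
      rw [Subgroup.mem_bot]
      have e : x = g * (g⁻¹ * x * g) * g⁻¹ := by group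
      rw [e, hx', mul_one, mul_inv_cancel])
    (by
      intro x hx
      rw [Subgroup.mem_comap, hφ] at hx
      obtain ⟨a, ha⟩ := hg _ hx
      exact ⟨a, by
        have e : g⁻¹ * (g * x * g⁻¹) * g = g⁻¹ * (g * u2 a * g⁻¹) * g := by rw [ha]
        have e1 : g⁻¹ * (g * x * g⁻¹) * g = x := by group
        have e2 : g⁻¹ * (g * u2 a * g⁻¹) * g = u2 a := by group
        rw [← e1, e, e2]⟩)
  refine ⟨F', g * g', s, fun b => ?_, ?_⟩
  · have h := h1 b
    rw [Subgroup.mem_comap, hφ] at h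
    have e : g * g' * SpecialLinearGroup.map F'.subtype (u2 b) * (g * g')⁻¹ =
        g * (g' * SpecialLinearGroup.map F'.subtype (u2 b) * g'⁻¹) * g⁻¹ := by group
    rw [e]
    exact h
  · have e : g * g' * SpecialLinearGroup.map F'.subtype (h2 s) * (g * g')⁻¹ =
        g * (g' * SpecialLinearGroup.map F'.subtype (h2 s) * g'⁻¹) * g⁻¹ := by group
    rw [e, h2']
    group

end MP7b0bad.Ad
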