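import Pool.Agent.Work.MP_7b0bad_ag.Ad.Stmts
import Mathlib.LinearAlgebra.Matrix.SpecialLinearGroup

set_option autoImplicit false

/-!
# [SGen] `SL_(n+1)(F)` is generated by the unitriangular group and the block embeddings
-/

open Matrix

namespace MP7b0bad.Ad

open MT (Bor2 h2 u2 Rz Nz)

/-- the group generated by `UT` and the block embeddings -/
def SGen_H (F : Type) [Field F] (n : ℕ) : Subgroup (SpecialLinearGroup (Fin (n + 1)) F) :=
  UT (n + 1) F ⊔ (⨆ i : Fin n, (emb (F := F) i).range)

theorem SGen_emb_mem (F : Type) [Field F] (n : ℕ) (i : Fin n)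
    (M : SpecialLinearGroup (Fin 2) F) : emb i M ∈ SGen_H F n := by
  have h1 : (emb (F := F) i).range ≤ ⨆ i : Fin n, (emb (F := F) i).range :=
    le_iSup (fun i : Fin n => (emb (F := F) i).range) i
  exact (le_trans h1 le_sup_right) ⟨M, rfl⟩

theorem SGen_UT_mem (F : Type) [Field F] (n : ℕ) {M : SpecialLinearGroup (Fin (n + 1)) F}
    (hM : M ∈ UT (n + 1) F) : M ∈ SGen_H F n :=
  (le_sup_left : UT (n + 1) F ≤ SGen_H F n) hM

/-- upper transvections are unitriangular -/
theorem SGen_upper (F : Type) [Field F] (n : ℕ) (i j : Fin (n + 1)) (hij : i ≠ j) (h : i < j)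
    (c : F) : SpecialLinearGroup.transvection hij c ∈ UT (n + 1) F := by
  change Tri ((1 : Matrix (Fin (n + 1)) (Fin (n + 1)) F) + Matrix.single i j c)
  constructor
  · intro a b hab
    rw [Matrix.add_apply, Matrix.one_apply_ne (by omega), zero_add]
    apply Matrix.single_apply_of_ne
    rintro ⟨h1, h2⟩
    omega
  · intro a
    rw [Matrix.add_apply, Matrix.one_apply_eq]
    rw [Matrix.single_apply_of_ne, add_zero]
    rintro ⟨h1, h2⟩
    omega

/-- lower unitriangular matrices -/
def SGen_l2 {F : Type} [Field F] (c : F) : SpecialLinearGroup (Fin 2) F :=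
  ⟨!![1, 0; c, 1], by simp [Matrix.det_fin_two]⟩

theorem SGen_step (F : Type) [Field F] (n : ℕ) (i : Fin n) (hij : i.succ ≠ i.castSucc)
    (c : F) : SpecialLinearGroup.transvection hij c = emb i (SGen_l2 c) := by
  apply Subtype.ext
  change (1 : Matrix (Fin (n + 1)) (Fin (n + 1)) F) + Matrix.single i.succ i.castSucc c =
    1 + colM F i * (((SGen_l2 c).1 - 1) * (colM F i)ᵀ)
  congr 1
  have h : i.castSucc ≠ i.succ := Fin.castSucc_lt_succ.ne
  ext a b
  rw [Matrix.mul_apply, Fin.sum_univ_two, Matrix.mul_apply, Matrix.mul_apply, Fin.sum_univ_two,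
    Fin.sum_univ_two]
  simp only [colM, SGen_l2, Matrix.transpose_apply, Matrix.of_apply, Matrix.sub_apply,
    Matrix.single_apply]
  simp
  by_cases h1 : a = i.succ
  · by_cases h2 : b = i.castSucc
    · simp [h1, h2]
    · simp [h1, h2, Ne.symm h2]
  · simp [h1, Ne.symm h1]

theorem SGen_comm (F : Type) [Field F] (n : ℕ) (i l j : Fin (n + 1)) (hil : i ≠ l) (hlj : l ≠ j)
    (hij : i ≠ j) (c : F) :
    SpecialLinearGroup.transvection hil c * SpecialLinearGroup.transvection hlj (1 : F) =
      SpecialLinearGroup.transvection hij c *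
        (SpecialLinearGroup.transvection hlj (1 : F) * SpecialLinearGroup.transvection hil c) := by
  apply Subtype.ext
  change (1 + Matrix.single i l c) * (1 + Matrix.single l j (1 : F)) =
    (1 + Matrix.single i j c) * ((1 + Matrix.single l j (1 : F)) * (1 + Matrix.single i l c))
  have h1 : Matrix.single l j (1 : F) * Matrix.single i l c = 0 :=
    Matrix.single_mul_single_of_ne _ _ _ _ hij.symm _
  have h2 : Matrix.single i l c * Matrix.single l j (1 : F) = Matrix.single i j c := by
    rw [Matrix.single_mul_single_same, mul_one]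
  have h3 : Matrix.single i j c * Matrix.single l j (1 : F) = 0 :=
    Matrix.single_mul_single_of_ne _ _ _ _ hlj.symm _
  have h4 : Matrix.single i j c * Matrix.single i l c = 0 :=
    Matrix.single_mul_single_of_ne _ _ _ _ hij.symm _
  simp only [Matrix.mul_add, Matrix.add_mul, Matrix.mul_one, Matrix.one_mul, h1, h2, h3, h4,
    add_zero]
  abel

theorem SGen_lower (F : Type) [Field F] (n : ℕ) (d : ℕ) : ∀ (i j : Fin (n + 1)) (hij : i ≠ j),
    i.val = j.val + d + 1 → ∀ c : F, SpecialLinearGroup.transvection hij c ∈ SGen_H F n := by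
  induction d with
  | zero =>
    intro i j hij h c
    have hj : j.val < n := by have := i.2; omega
    obtain ⟨j', rfl⟩ : ∃ j' : Fin n, j = j'.castSucc := ⟨⟨j.val, hj⟩, rfl⟩
    obtain rfl : i = j'.succ := by
      apply Fin.ext
      simpa using h
    rw [SGen_step]
    exact SGen_emb_mem F n _ _
  | succ d ih =>
    intro i j hij h c
    have hl : j.val + 1 < n + 1 := by have := i.2; omega
    set l : Fin (n + 1) := ⟨j.val + 1, hl⟩ with hldef
    have hlv : l.val = j.val + 1 := rfl
    have hil : i ≠ l := by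
      intro he
      have := congrArg Fin.val he
      omega
    have hlj : l ≠ j := by
      intro he
      have := congrArg Fin.val he
      omega
    have h1 := ih i l hil (by omega) c
    have h2 : SpecialLinearGroup.transvection hlj (1 : F) ∈ SGen_H F n := by
      have hj : j.val < n := by omega
      have hj' : j = (⟨j.val, hj⟩ : Fin n).castSucc := rfl
      have hl' : l = (⟨j.val, hj⟩ : Fin n).succ := rfl
      have h3 := SGen_step F n ⟨j.val, hj⟩ (by rw [← hj', ← hl']; exact hlj) 1
      have h4 : SpecialLinearGroup.transvection hlj (1 : F) = emb ⟨j.val, hj⟩ (SGen_l2 1) := h3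
      rw [h4]
      exact SGen_emb_mem F n _ _
    have h3 := SGen_comm F n i l j hil hlj hij c
    rw [← mul_inv_eq_iff_eq_mul] at h3
    rw [← h3]
    exact mul_mem (mul_mem h1 h2) (inv_mem (mul_mem h2 h1))

theorem SGen_trans (F : Type) [Field F] (n : ℕ) (i j : Fin (n + 1)) (hij : i ≠ j) (c : F) :
    SpecialLinearGroup.transvection hij c ∈ SGen_H F n := by
  rcases lt_or_gt_of_ne hij with h | h
  · exact SGen_UT_mem F n (SGen_upper F n i j hij h c)
  · exact SGen_lower F n (i.val - j.val - 1) i j hij (by omega) c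

theorem SGen_list (F : Type) [Field F] (n : ℕ) (L : List (TransvectionStruct (Fin (n + 1)) F)) :
    (L.map TransvectionStruct.toSpecialLinearGroup).prod ∈ SGen_H F n := by
  apply Subgroup.list_prod_mem
  intro x hx
  rw [List.mem_map] at hx
  obtain ⟨t, _, rfl⟩ := hx
  exact SGen_trans F n t.i t.j t.hij t.c

theorem prf_SGen (hPrep : SPrep) : SGen := by
  intro F _ n
  rw [eq_top_iff]
  intro M _
  change M ∈ SGen_H F n
  obtain ⟨L, L', D, hD, rfl⟩ :=
    SpecialLinearGroup.exists_list_transvec_mul_diagonal_mul_list_transvec M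
  refine mul_mem (mul_mem (SGen_list F n L) ?_) (SGen_list F n L')
  obtain ⟨s, hs⟩ := (hPrep F n).2.2.2 ⟨diagonal D, hD⟩
    (fun i j hij => Matrix.diagonal_apply_ne _ hij)
  rw [← hs]
  apply Subgroup.list_prod_mem
  intro x hx
  rw [List.mem_ofFn] at hx
  obtain ⟨i, rfl⟩ := hx
  exact SGen_emb_mem F n _ _

end MP7b0bad.Ad
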