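import Pool.Agent.Work.MP_7b0bad_ag.Ad.Stmts

set_option autoImplicit false

/-!
# The normaliser of the unitriangular matrices
-/

open Polynomial Pointwise Matrix

namespace MP7b0bad.Ad

theorem SNrm_conj {F : Type} [Field F] [Finite F] {n : ℕ} {c : SpecialLinearGroup (Fin n) F}
    (hc : ∀ x ∈ UT n F, c * x * c⁻¹ ∈ UT n F) : ∀ x ∈ UT n F, c⁻¹ * x * c ∈ UT n F := by
  have hfin : Finite (UT n F) := by
    refine Finite.of_injective (fun x : UT n F => (x.1.1 : Matrix (Fin n) (Fin n) F)) ?_
    intro x y h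
    exact Subtype.ext (Subtype.ext h)
  let φ : UT n F → UT n F := fun x => ⟨c * x.1 * c⁻¹, hc x.1 x.2⟩
  have hinj : Function.Injective φ := by
    intro x y h
    have h1 : c * x.1 * c⁻¹ = c * y.1 * c⁻¹ := congrArg Subtype.val h
    exact Subtype.ext (mul_left_cancel (mul_right_cancel h1))
  have hsurj := Finite.surjective_of_injective hinj
  intro x hx
  obtain ⟨y, hy⟩ := hsurj ⟨x, hx⟩
  have h1 : c * y.1 * c⁻¹ = x := congrArg Subtype.val hy
  rw [← h1]
  have h2 : c⁻¹ * (c * y.1 * c⁻¹) * c = y.1 := by group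
  rw [h2]
  exact y.2

theorem SNrm_trans {F : Type} [Field F] {n : ℕ} {j b : Fin n} (h : j < b) :
    ∃ u ∈ UT n F, u.1 = 1 + Matrix.single j b (1 : F) := by
  have hT : Tri (1 + Matrix.single j b (1 : F)) := by
    constructor
    · intro i l hl
      rw [Matrix.add_apply, Matrix.one_apply_ne (by omega), zero_add]
      rw [Matrix.single_apply_of_ne]
      rintro ⟨rfl, rfl⟩
      exact absurd (h.trans hl) (lt_irrefl _)
    · intro i
      rw [Matrix.add_apply, Matrix.one_apply_eq, Matrix.single_apply_of_ne, add_zero]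
      rintro ⟨rfl, rfl⟩
      exact lt_irrefl _ h
  refine ⟨⟨1 + Matrix.single j b (1 : F), ?_⟩, hT, rfl⟩
  rw [Matrix.det_of_isUpperTriangular (fun i l hl => hT.1 i l hl)]
  exact Finset.prod_eq_one fun i _ => hT.2 i

theorem SNrm_upper {F : Type} [Field F] [Finite F] {n : ℕ} {c : SpecialLinearGroup (Fin n) F}
    (hc : ∀ x ∈ UT n F, c * x * c⁻¹ ∈ UT n F) : ∀ j : ℕ, ∀ i b : Fin n, i.1 = j → i < b →
    c.1 b i = 0 := by
  intro j
  induction j using Nat.strong_induction_on with
  | _ j ih =>
    intro i b hi hib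
    obtain ⟨u, hu, hu1⟩ := SNrm_trans (F := F) hib
    have h1 := SNrm_conj hc u hu
    set w := c⁻¹ * u * c with hw
    have h2 : c * w = u * c := by rw [hw]; group
    have h3 : c.1 * w.1 = u.1 * c.1 := by
      have := congrArg Subtype.val h2
      exact this
    have h4 : (c.1 * w.1) i i = c.1 i i := by
      rw [Matrix.mul_apply, Finset.sum_eq_single i]
      · rw [h1.2 i, mul_one]
      · intro l _ hl
        rcases lt_or_gt_of_ne hl with h | h
        · rw [ih l.1 (by rw [← hi]; exact h) l i rfl h, zero_mul]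
        · rw [h1.1 l i h, mul_zero]
      · intro h
        exact absurd (Finset.mem_univ i) h
    have h5 : (u.1 * c.1) i i = c.1 i i + c.1 b i := by
      rw [hu1, Matrix.add_mul, Matrix.one_mul, Matrix.add_apply, Matrix.single_mul_apply_same,
        one_mul]
    rw [h3, h5] at h4
    exact left_eq_add.1 h4.symm

theorem prf_SNrm : SNrm := by
  intro F _ _ n c hc
  have hup : ∀ i b : Fin n, i < b → c.1 b i = 0 := fun i b h => SNrm_upper hc i.1 i b rfl h
  have hdet : ∏ i, c.1 i i = 1 := by
    rw [← Matrix.det_of_isUpperTriangular (fun i j h => hup j i h)]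
    exact c.2
  have hne : ∀ i, c.1 i i ≠ 0 := by
    intro i h
    have h1 : ∏ i, c.1 i i = 0 := Finset.prod_eq_zero (Finset.mem_univ i) h
    rw [h1] at hdet
    exact zero_ne_one hdet
  let t : SpecialLinearGroup (Fin n) F := ⟨Matrix.diagonal fun i => c.1 i i, by
    rw [Matrix.det_diagonal]; exact hdet⟩
  let s : SpecialLinearGroup (Fin n) F := ⟨Matrix.diagonal fun i => (c.1 i i)⁻¹, by
    rw [Matrix.det_diagonal, Finset.prod_inv_distrib, hdet, inv_one]⟩
  have hts : t * s = 1 := by
    apply Subtype.ext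
    change (Matrix.diagonal fun i => c.1 i i) * (Matrix.diagonal fun i => (c.1 i i)⁻¹) = 1
    rw [Matrix.diagonal_mul_diagonal]
    have h1 : (fun i => c.1 i i * (c.1 i i)⁻¹) = fun _ => (1 : F) :=
      funext fun i => mul_inv_cancel₀ (hne i)
    rw [h1, Matrix.diagonal_one]
  have hsc : s * c ∈ UT n F := by
    have h1 : (s * c).1 = (Matrix.diagonal fun i => (c.1 i i)⁻¹) * c.1 := rfl
    have h2 : Tri (s * c).1 := by
      rw [h1]
      constructor
      · intro i j h
        rw [Matrix.diagonal_mul, hup j i h, mul_zero]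
      · intro i
        rw [Matrix.diagonal_mul, inv_mul_cancel₀ (hne i)]
    exact h2
  have hc' : c = t * (s * c) := by rw [← mul_assoc, hts, one_mul]
  refine ⟨t, fun i j hij => Matrix.diagonal_apply_ne _ hij, ?_⟩
  apply le_antisymm
  · refine sup_le le_sup_left ?_
    rw [Subgroup.zpowers_le]
    rw [hc']
    exact mul_mem (Subgroup.mem_sup_right (Subgroup.mem_zpowers t)) (Subgroup.mem_sup_left hsc)
  · refine sup_le le_sup_left ?_
    rw [Subgroup.zpowers_le]
    have h1 : t = c * (s * c)⁻¹ := by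
      rw [eq_mul_inv_iff_mul_eq]
      exact hc'.symm
    rw [h1]
    exact mul_mem (Subgroup.mem_sup_right (Subgroup.mem_zpowers c))
      (Subgroup.mem_sup_left (inv_mem hsc))

end MP7b0bad.Ad
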