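import Pool.Agent.Work.MP_7b0bad_ag.Ad.Stmts

set_option autoImplicit false

/-!
# Block Ad: properties of the block embeddings
-/

open Polynomial Matrix

namespace MP7b0bad.Ad

open SnT (cc xx)
open MT (Bor2 h2 u2 Rz Nz)

/-- the diagonal entries of `emb i (h2 s)` -/
def SPrep_d {F : Type} [Field F] {n : ℕ} (i : Fin n) (s : Fˣ) (a : Fin (n + 1)) : Fˣ :=
  (if a = i.castSucc then s else 1) * (if a = i.succ then s⁻¹ else 1)

theorem SPrep_emb {F : Type} [Field F] {n : ℕ} (i : Fin n) (M : SpecialLinearGroup (Fin 2) F)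
    (a b : Fin (n + 1)) : (emb i M).1 a b = (1 : Matrix (Fin (n + 1)) (Fin (n + 1)) F) a b +
      ((if a = i.castSucc then 1 else 0) * ((M.1 0 0 - 1) * (if b = i.castSucc then 1 else 0) +
        M.1 0 1 * (if b = i.succ then 1 else 0)) +
      (if a = i.succ then 1 else 0) * (M.1 1 0 * (if b = i.castSucc then 1 else 0) +
        (M.1 1 1 - 1) * (if b = i.succ then 1 else 0))) := by
  change (1 + colM F i * ((M.1 - 1) * (colM F i)ᵀ) : Matrix (Fin (n + 1)) (Fin (n + 1)) F) a b = _
  rw [Matrix.add_apply, Matrix.mul_apply, Fin.sum_univ_two, Matrix.mul_apply, Matrix.mul_apply,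
    Fin.sum_univ_two, Fin.sum_univ_two]
  simp only [colM, Matrix.transpose_apply, Matrix.sub_apply, Matrix.of_apply, Matrix.cons_val_zero,
    Matrix.cons_val_one, Matrix.one_apply_eq, Matrix.one_apply_ne (zero_ne_one (α := Fin 2)),
    Matrix.one_apply_ne (zero_ne_one (α := Fin 2)).symm, sub_zero]
  rfl

theorem SPrep_h2 {F : Type} [Field F] {n : ℕ} (i : Fin n) (s : Fˣ) :
    (emb i (h2 s)).1 = Matrix.diagonal (fun a => ((SPrep_d i s a : Fˣ) : F)) := by
  have hne : i.castSucc ≠ i.succ := Fin.castSucc_lt_succ.ne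
  ext a b
  rw [SPrep_emb]
  by_cases hab : a = b
  · subst hab
    rw [Matrix.one_apply_eq, Matrix.diagonal_apply_eq]
    by_cases h1 : a = i.castSucc
    · subst h1
      simp [h2, SPrep_d, hne]
    · by_cases h2' : a = i.succ
      · subst h2'
        simp [h2, SPrep_d, hne.symm]
      · simp [h2, SPrep_d, h1, h2']
  · rw [Matrix.one_apply_ne hab, Matrix.diagonal_apply_ne _ hab]
    by_cases h1 : a = i.castSucc
    · subst h1
      have h3 : ¬ b = i.castSucc := fun h => hab h.symm
      simp [h2, h3, hne]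
    · by_cases h2' : a = i.succ
      · subst h2'
        have h3 : ¬ b = i.succ := fun h => hab h.symm
        simp [h2, h3, hne.symm]
      · simp [h1, h2']

theorem SPrep_inv {F : Type} [Field F] {n : ℕ} (i : Fin n) (s : Fˣ) :
    (emb i (h2 s))⁻¹ = emb i (h2 s⁻¹) := by
  have h : h2 s * h2 s⁻¹ = 1 := by
    apply Subtype.ext
    change (h2 s).1 * (h2 s⁻¹).1 = 1
    ext x y
    fin_cases x <;> fin_cases y <;> simp [h2, Matrix.mul_apply, Fin.sum_univ_two]
  rw [inv_eq_iff_mul_eq_one, ← map_mul, h, map_one]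

theorem SPrep_dinv {F : Type} [Field F] {n : ℕ} (i : Fin n) (s : Fˣ) (a : Fin (n + 1)) :
    SPrep_d i s a * SPrep_d i s⁻¹ a = 1 := by
  unfold SPrep_d
  split_ifs <;> simp

theorem SPrep_prod {F : Type} [Field F] {n : ℕ} (S : ℕ → Fˣ) (h0 : S 0 = 1) (hn : S (n + 1) = 1)
    (a : Fin (n + 1)) : ∏ i : Fin n, SPrep_d i (S (i.1 + 1)) a = S (a.1 + 1) * (S a.1)⁻¹ := by
  unfold SPrep_d
  rw [Finset.prod_mul_distrib]
  congr 1
  · refine Fin.lastCases ?_ (fun j => ?_) a
    · rw [Fin.val_last, hn]
      refine Finset.prod_eq_one fun i _ => ?_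
      rw [if_neg (Fin.castSucc_lt_last i).ne']
    · rw [Finset.prod_eq_single j]
      · simp
      · intro i _ hij
        rw [if_neg]
        intro h
        exact hij (Fin.castSucc_injective _ h).symm
      · intro h
        exact absurd (Finset.mem_univ j) h
  · refine Fin.cases ?_ (fun j => ?_) a
    · rw [Fin.val_zero, h0, inv_one]
      refine Finset.prod_eq_one fun i _ => ?_
      rw [if_neg (Fin.succ_ne_zero i).symm]
    · rw [Finset.prod_eq_single j]
      · simp
      · intro i _ hij
        rw [if_neg]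
        intro h
        exact hij (Fin.succ_injective _ h).symm
      · intro h
        exact absurd (Finset.mem_univ j) h

theorem SPrep_lp {F : Type} [Field F] {m : ℕ} (l : List (SpecialLinearGroup (Fin m) F)) :
    (l.prod).1 = (l.map fun M : SpecialLinearGroup (Fin m) F => M.1).prod := by
  induction l with
  | nil => rfl
  | cons a l ih =>
    rw [List.prod_cons, List.map_cons, List.prod_cons, ← ih]
    rfl

theorem SPrep_ld {F : Type} [Field F] {m : ℕ} (l : List (Fin m → F)) :
    (l.map Matrix.diagonal).prod = Matrix.diagonal l.prod := by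
  induction l with
  | nil => simp
  | cons a l ih =>
    rw [List.map_cons, List.prod_cons, List.prod_cons, ih, Matrix.diagonal_mul_diagonal]
    rfl

theorem prf_SPrep : SPrep := by
  intro F _ n
  refine ⟨?_, ?_, ?_, ?_⟩
  · intro i b
    have hne : i.castSucc ≠ i.succ := Fin.castSucc_lt_succ.ne
    have hlt : i.castSucc < i.succ := Fin.castSucc_lt_succ
    change Tri (emb i (u2 b)).1
    constructor
    · intro x y hxy
      rw [SPrep_emb, Matrix.one_apply_ne (by omega)]
      by_cases h1 : x = i.castSucc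
      · subst h1
        have h3 : ¬ y = i.succ := by
          intro h
          rw [h] at hxy
          exact absurd hxy (not_lt.mpr hlt.le)
        simp [u2, h3]
      · simp [u2, h1]
    · intro x
      rw [SPrep_emb, Matrix.one_apply_eq]
      by_cases h1 : x = i.castSucc
      · subst h1
        simp [u2, hne]
      · simp [u2, h1]
  · intro i s x hx
    have hx' : Tri x.1 := hx
    rw [SPrep_inv]
    change Tri ((emb i (h2 s)).1 * x.1 * (emb i (h2 s⁻¹)).1)
    rw [SPrep_h2, SPrep_h2]
    constructor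
    · intro a b hab
      rw [Matrix.mul_diagonal, Matrix.diagonal_mul, hx'.1 a b hab, mul_zero, zero_mul]
    · intro a
      rw [Matrix.mul_diagonal, Matrix.diagonal_mul, hx'.2 a, mul_one, ← Units.val_mul, SPrep_dinv,
        Units.val_one]
  · intro i j s t
    apply Subtype.ext
    change (emb i (h2 s)).1 * (emb j (h2 t)).1 = (emb j (h2 t)).1 * (emb i (h2 s)).1
    rw [SPrep_h2, SPrep_h2, Matrix.diagonal_mul_diagonal, Matrix.diagonal_mul_diagonal]
    congr 1
    funext a
    rw [mul_comm]
  · intro t ht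
    have hd : t.1 = Matrix.diagonal (fun a => t.1 a a) := by
      ext a b
      by_cases hab : a = b
      · subst hab
        rw [Matrix.diagonal_apply_eq]
      · rw [Matrix.diagonal_apply_ne _ hab, ht a b hab]
    have hdet : ∏ a, t.1 a a = 1 := by
      rw [← Matrix.det_diagonal, ← hd]
      exact t.2
    have hne : ∀ a, t.1 a a ≠ 0 := by
      intro a h
      have h4 : ∏ a, t.1 a a = 0 := Finset.prod_eq_zero (Finset.mem_univ a) h
      rw [h4] at hdet
      exact zero_ne_one hdet
    let u : ℕ → Fˣ := fun j => if h : j < n + 1 then Units.mk0 (t.1 ⟨j, h⟩ ⟨j, h⟩) (hne _) else 1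
    let S : ℕ → Fˣ := fun k => ∏ j ∈ Finset.range k, u j
    have hu : ∀ a : Fin (n + 1), ((u a.1 : Fˣ) : F) = t.1 a a := by
      intro a
      simp only [u]
      rw [dif_pos a.2]
      rfl
    have hS0 : S 0 = 1 := by simp [S]
    have hSn : S (n + 1) = 1 := by
      apply Units.ext
      simp only [S]
      rw [Finset.prod_range, Units.coe_prod, Units.val_one, ← hdet]
      exact Finset.prod_congr rfl fun a _ => hu a
    refine ⟨fun i => S (i.1 + 1), ?_⟩
    apply Subtype.ext
    rw [SPrep_lp, List.map_ofFn]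
    have h1 : (fun M : SpecialLinearGroup (Fin (n + 1)) F => M.1) ∘
        (fun i : Fin n => emb i (h2 (S (i.1 + 1)))) =
        Matrix.diagonal ∘ fun (i : Fin n) (a : Fin (n + 1)) =>
          ((SPrep_d i (S (i.1 + 1)) a : Fˣ) : F) := by
      funext i
      exact SPrep_h2 i _
    rw [h1, ← List.map_ofFn, SPrep_ld, List.prod_ofFn, hd]
    congr 1
    funext a
    rw [Finset.prod_apply, ← Units.coe_prod, SPrep_prod S hS0 hSn a]
    have h2' : S (a.1 + 1) = S a.1 * u a.1 := Finset.prod_range_succ _ _
    rw [h2', mul_comm (S a.1), mul_assoc, mul_inv_cancel, mul_one, hu]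

end MP7b0bad.Ad
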