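import Pool.Agent.Work.MP_7b0bad_ag.Ad.Stmts
import Mathlib.LinearAlgebra.Matrix.GeneralLinearGroup.Card
import Mathlib.GroupTheory.Sylow

set_option autoImplicit false

/-!
# Block Ad, item SSyl: the unitriangular group is a Sylow subgroup of `SL_n(F)`
-/

open Matrix

namespace MP7b0bad.Ad

/-- the matrix with given entries above the diagonal -/
def SSyl_mat {n : ℕ} {F : Type} [Field F] (f : ∀ j : Fin n, {i : Fin n // i < j} → F) :
    Matrix (Fin n) (Fin n) F :=
  Matrix.of fun i j => if h : i < j then f j ⟨i, h⟩ else if i = j then 1 else 0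

theorem SSyl_mat_tri {n : ℕ} {F : Type} [Field F] (f : ∀ j : Fin n, {i : Fin n // i < j} → F) :
    Tri (SSyl_mat f) := by
  constructor
  · intro i j hij
    have h1 : ¬ i < j := by omega
    have h2 : i ≠ j := by omega
    simp only [SSyl_mat, Matrix.of_apply, dif_neg h1, if_neg h2]
  · intro i
    simp only [SSyl_mat, Matrix.of_apply, lt_self_iff_false, dif_neg, not_false_eq_true, if_true]

theorem SSyl_det {n : ℕ} {F : Type} [Field F] {M : Matrix (Fin n) (Fin n) F} (hM : Tri M) :
    M.det = 1 := by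
  rw [Matrix.det_of_isUpperTriangular (fun i j h => hM.1 i j h)]
  exact Finset.prod_eq_one fun i _ => hM.2 i

/-- `UT n F` is parametrised by the entries above the diagonal -/
def SSyl_equiv (n : ℕ) (F : Type) [Field F] :
    UT n F ≃ (∀ j : Fin n, {i : Fin n // i < j} → F) where
  toFun M j i := M.1.1 i.1 j
  invFun f := ⟨⟨SSyl_mat f, SSyl_det (SSyl_mat_tri f)⟩, SSyl_mat_tri f⟩
  left_inv := by
    intro M
    have hM : Tri M.1.1 := M.2
    apply Subtype.ext
    apply Subtype.ext
    ext i j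
    change SSyl_mat (fun j (i : {i : Fin n // i < j}) => M.1.1 i.1 j) i j = M.1.1 i j
    simp only [SSyl_mat, Matrix.of_apply]
    by_cases h : i < j
    · rw [dif_pos h]
    · rw [dif_neg h]
      by_cases h2 : i = j
      · rw [if_pos h2, h2, hM.2]
      · rw [if_neg h2, hM.1 i j (by omega)]
  right_inv := by
    intro f
    funext j i
    change SSyl_mat f i.1 j = f j i
    simp only [SSyl_mat, Matrix.of_apply, dif_pos i.2]

theorem SSyl_card_UT (n : ℕ) (F : Type) [Field F] [Finite F] :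
    Nat.card (UT n F) = ∏ j : Fin n, Nat.card F ^ (j : ℕ) := by
  rw [Nat.card_congr (SSyl_equiv n F), Nat.card_pi]
  refine Finset.prod_congr rfl fun j _ => ?_
  rw [Nat.card_fun]
  congr 1
  have h : Nat.card {i : Fin n // i < j} = (Finset.Iio j).card := by
    rw [Nat.card_eq_fintype_card, Fintype.card_subtype]
    congr 1
    ext i
    simp
  rw [h, Fin.card_Iio]

theorem SSyl_card_GL (n : ℕ) (F : Type) [Field F] [Finite F] :
    Nat.card (GL (Fin n) F) =
      (∏ j : Fin n, Nat.card F ^ (j : ℕ)) * ∏ j : Fin n, (Nat.card F ^ (n - (j : ℕ)) - 1) := by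
  have _inst : Fintype F := Fintype.ofFinite F
  rw [Matrix.card_GL_field, Nat.card_eq_fintype_card, ← Finset.prod_mul_distrib]
  refine Finset.prod_congr rfl fun j _ => ?_
  rw [Nat.mul_sub, mul_one, ← pow_add]
  congr 2
  have := j.2
  omega

theorem SSyl_q (p : ℕ) [Fact p.Prime] (F : Type) [Field F] [Finite F] [CharP F p] :
    ∃ e : ℕ, 0 < e ∧ Nat.card F = p ^ e := by
  have _inst : Fintype F := Fintype.ofFinite F
  obtain ⟨e, -, he⟩ := FiniteField.card F p
  exact ⟨e, e.pos, by rw [Nat.card_eq_fintype_card, he]⟩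

theorem prf_SSyl : SSyl := by
  intro p hp F _ _ _ n
  obtain ⟨e, he, hq⟩ := SSyl_q p F
  have hU : IsPGroup p (UT n F) := by
    refine IsPGroup.of_card (n := ∑ j : Fin n, e * (j : ℕ)) ?_
    rw [SSyl_card_UT, hq, ← Finset.prod_pow_eq_pow_sum]
    refine Finset.prod_congr rfl fun j _ => ?_
    rw [pow_mul]
  refine ⟨hU, fun P => ?_⟩
  have hidx : ¬ p ∣ (UT n F).index := by
    intro hd
    have h1 : Nat.card (SpecialLinearGroup (Fin n) F) ∣ Nat.card (GL (Fin n) F) :=
      Subgroup.card_dvd_of_injective SpecialLinearGroup.toGL SpecialLinearGroup.toGL_injective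
    rw [SSyl_card_GL, ← SSyl_card_UT, ← Subgroup.card_mul_index (UT n F)] at h1
    have h2 : (UT n F).index ∣ ∏ j : Fin n, (Nat.card F ^ (n - (j : ℕ)) - 1) :=
      Nat.dvd_of_mul_dvd_mul_left Nat.card_pos h1
    have h3 := hd.trans h2
    obtain ⟨j, -, hj⟩ := (Nat.Prime.prime hp.out).exists_mem_finset_dvd h3
    have hj0 : n - (j : ℕ) ≠ 0 := by
      have := j.2
      omega
    have h4 : p ∣ Nat.card F ^ (n - (j : ℕ)) := by
      rw [hq]
      exact dvd_pow (dvd_pow_self p he.ne') hj0
    have h5 : 1 ≤ Nat.card F ^ (n - (j : ℕ)) := Nat.one_le_pow _ _ Nat.card_pos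
    have h6 : p ∣ 1 := by
      have h7 := (Nat.dvd_sub h4 hj)
      rwa [Nat.sub_sub_self h5] at h7
    exact hp.out.one_lt.ne' (Nat.dvd_one.mp h6)
  have _inst : Finite (SpecialLinearGroup (Fin n) F) := inferInstance
  obtain ⟨g, hg⟩ := MulAction.exists_smul_eq (SpecialLinearGroup (Fin n) F) (hU.toSylow hidx) P
  refine ⟨g, ?_⟩
  rw [← hg, Sylow.coe_subgroup_smul, IsPGroup.toSylow_coe]
  rfl

end MP7b0bad.Ad
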