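import Pool.Agent.Work.MP_7b0bad_ag.Ad.AMain
import Pool.Agent.Work.MP_7b0bad_ag.Ad.ALie
import Pool.Agent.Work.MP_7b0bad_ag.Ad.DIrr
import Pool.Agent.Work.MP_7b0bad_ag.Ad.DUnr
import Pool.Agent.Work.MP_7b0bad_ag.Ad.DVal
import Pool.Agent.Work.MP_7b0bad_ag.Ad.DBas
import Pool.Agent.Work.MP_7b0bad_ag.Ad.DRep
import Pool.Agent.Work.MP_7b0bad_ag.Ad.DOrb
import Pool.Agent.Work.MP_7b0bad_ag.Ad.DMax
import Pool.Agent.Work.MP_7b0bad_ag.Ad.LRz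
import Pool.Agent.Work.MP_7b0bad_ag.Ad.SSyl
import Pool.Agent.Work.MP_7b0bad_ag.Ad.SNrm
import Pool.Agent.Work.MP_7b0bad_ag.Ad.SPrep
import Pool.Agent.Work.MP_7b0bad_ag.Ad.SGen
import Pool.Agent.Work.MP_7b0bad_ag.Ad.S2N

set_option autoImplicit false

/-!
# Block Ad: the results of the block
-/

namespace MP7b0bad.Ad

theorem all_AdMain : MT.AdMain :=
  prf_AdMain prf_DIrr prf_DUnr (prf_DBas prf_DIrr prf_DVal) prf_DRep (prf_DOrb prf_DVal) prf_DMax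

theorem all_LRz : LRz := prf_LRz all_AdMain

theorem MLie_of (hFam : MT.MFam) : MT.MLie := prf_MLie hFam all_LRz

theorem MSLn_of (hFam : MT.MFam) : MT.MSLn :=
  prf_MSLn (MLie_of hFam) prf_SSyl prf_SNrm prf_SPrep (prf_SGen prf_SPrep)

theorem MSL2_of (hChar : MT.MChar2) : MT.MSL2 := prf_MSL2 all_LRz hChar prf_S2N

end MP7b0bad.Ad
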