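import Pool.Agent.Work.MP_7b0bad_ag.Ad.Stmts
import Pool.Agent.Work.MP_7b0bad_ag.AnT.Fin
import Pool.Agent.Work.MP_7b0bad_ag.SnT.SIner

set_option autoImplicit false

/-!
# Block Ad: the cover of the additive polynomial
-/

open Polynomial Pointwise Matrix

namespace MP7b0bad.Ad

open SnT (cc xx)
open MT (Bor2 h2 u2 Rz Nz)

/-- a finite field embeds in an algebraically closed field of the same characteristic -/
theorem AMain_emb (p : ℕ) [Fact p.Prime] (k : Type) [Field k] [IsAlgClosed k] [CharP k p]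
    (F : Type) [Field F] [Finite F] [CharP F p] : Nonempty (F →+* k) := by
  let _ : Algebra (ZMod p) F := ZMod.algebra F p
  let _ : Algebra (ZMod p) k := ZMod.algebra k p
  have h1 : Module.Finite (ZMod p) F := Module.Finite.of_finite
  have h2 : Algebra.IsAlgebraic (ZMod p) F := Algebra.IsAlgebraic.of_finite (ZMod p) F
  exact ⟨(IsAlgClosed.lift (R := ZMod p) (S := F) (M := k)).toRingHom⟩

theorem AMain_card (p : ℕ) [Fact p.Prime] (F : Type) [Field F] [Finite F] [CharP F p] :
    ∃ n : ℕ, 0 < n ∧ Nat.card F = p ^ n := by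
  have _inst : Fintype F := Fintype.ofFinite F
  obtain ⟨n, -, hn⟩ := FiniteField.card F p
  exact ⟨n, n.2, by rw [Nat.card_eq_fintype_card, hn]⟩

theorem AMain_core (hOrb : DOrb) (hMax : DMax) (p : ℕ) [Fact p.Prime] (k : Type) [Field k]
    [IsAlgClosed k] [CharP k p] (F : Type) [Field F] [Finite F] (ι : F →+* k)
    (hq2 : 2 ≤ Nat.card F) (hirr : Irreducible (FG k (Nat.card F))) (L : Type) [Field L]
    [Algebra (RatFunc k) L] [IsSplittingField (RatFunc k) L (FG k (Nat.card F))]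
    [FiniteDimensional (RatFunc k) L] [IsGalois (RatFunc k) L] (A : ValuationSubring L)
    (hA : AtInfty (k := k) A) (w v : L) (hB : Bs ι (Nat.card F) A w v)
    (ρ : (L ≃ₐ[RatFunc k] L) →* SpecialLinearGroup (Fin 2) F) (hinj : Function.Injective ρ)
    (hρ : ∀ σ : L ≃ₐ[RatFunc k] L,
      σ w = cc k L (ι ((ρ σ).1 0 0)) * w + cc k L (ι ((ρ σ).1 1 0)) * v ∧
      σ v = cc k L (ι ((ρ σ).1 0 1)) * w + cc k L (ι ((ρ σ).1 1 1)) * v)
    (hU : ∀ A' : ValuationSubring L, (∀ c : k, cc k L c ∈ A') → xx k L ∈ A' →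
      ValuationSubring.inertiaSubgroup (RatFunc k) A' = ⊥) :
    Rel k (SpecialLinearGroup (Fin 2) F) (Bor2 F) := by
  -- uniqueness of coordinates
  have huniq : ∀ a b a' b' : F, cc k L (ι a) * w + cc k L (ι b) * v =
      cc k L (ι a') * w + cc k L (ι b') * v → a = a' ∧ b = b' := by
    intro a b a' b' h
    have h1 := hB.ind (a - a') (b - b') (by
      rw [map_sub, map_sub, map_sub, map_sub]
      linear_combination h)
    exact ⟨sub_eq_zero.1 h1.1, sub_eq_zero.1 h1.2⟩
  -- the decomposition group is upper triangular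
  have hup : ∀ σ : L ≃ₐ[RatFunc k] L, σ • A = A → (ρ σ).1 1 0 = 0 := by
    intro σ hσ
    by_contra hne
    have h1 := hB.big ((ρ σ).1 0 0) ((ρ σ).1 1 0) hne
    rw [← (hρ σ).1] at h1
    apply h1
    have h2 := F8_dec A σ hσ w ((A.mem_nonunits_iff).1 hB.wA)
    exact (A.valuation_le_one_iff _).1 h2.le
  have hdec : (A.decompositionSubgroup (RatFunc k)).map ρ = Bor2 F := by
    apply le_antisymm
    · rintro _ ⟨σ, hσ, rfl⟩
      exact hup σ hσ
    · intro M hM
      have hM0 : M.1 1 0 = 0 := hM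
      have hdet : M.1 0 0 * M.1 1 1 = 1 := by
        have h1 := M.2
        rw [Matrix.det_fin_two, hM0, mul_zero, sub_zero] at h1
        exact h1
      have hd0 : M.1 1 1 ≠ 0 := right_ne_zero_of_mul (by rw [hdet]; exact one_ne_zero)
      obtain ⟨σ, hσ, hσv⟩ := hOrb p k F ι L A w v hA hB v hB.vV hB.vA _
        (hB.mem (M.1 0 1) (M.1 1 1)) (hB.big (M.1 0 1) (M.1 1 1) hd0)
      refine ⟨σ, hσ, ?_⟩
      have h1 := huniq _ _ _ _ ((hρ σ).2.symm.trans hσv)
      have h2 := hup σ hσ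
      have h3 : (ρ σ).1 0 0 * (ρ σ).1 1 1 = 1 := by
        have h4 := (ρ σ).2
        rw [Matrix.det_fin_two, h2, mul_zero, sub_zero] at h4
        exact h4
      have h4 : (ρ σ).1 0 0 = M.1 0 0 := by
        rw [h1.2] at h3
        exact mul_right_cancel₀ hd0 (h3.trans hdet.symm)
      apply Subtype.ext
      ext i j
      fin_cases i <;> fin_cases j
      · exact h4
      · exact h1.1
      · exact h2.trans hM0.symm
      · exact h1.2
  -- surjectivity
  have hsurj : ρ.range = ⊤ := by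
    apply hMax F ρ.range
    · rw [← hdec]
      exact Subgroup.map_le_range ρ _
    · have hv0 : v ≠ 0 := by
        rintro rfl
        exact hB.vA A.zero_mem
      have hw : w ∈ (FG k (Nat.card F)).rootSet L :=
        ((mem_Vr hq2 w).1 hB.wV).resolve_left hB.w0
      have hv : v ∈ (FG k (Nat.card F)).rootSet L :=
        ((mem_Vr hq2 v).1 hB.vV).resolve_left hv0
      obtain ⟨σ, hσ⟩ := SnT.SGal_trans (L := L) hirr ⟨w, hw⟩ ⟨v, hv⟩
      have h1 : σ w = v := congrArg Subtype.val hσ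
      refine ⟨ρ σ, ⟨σ, rfl⟩, ?_⟩
      intro h2
      have h3 : (ρ σ).1 1 0 = 0 := h2
      have h4 : cc k L (ι ((ρ σ).1 0 0)) * w + cc k L (ι ((ρ σ).1 1 0)) * v =
          cc k L (ι 0) * w + cc k L (ι 1) * v := by
        rw [← (hρ σ).1, h1]
        simp
      have h5 := (huniq _ _ _ _ h4).2
      rw [h3] at h5
      exact zero_ne_one h5
  have hbij : Function.Bijective ρ := ⟨hinj, MonoidHom.range_eq_top.1 hsurj⟩
  refine (MP7b0bad.all_T0 k (SpecialLinearGroup (Fin 2) F) (Bor2 F)).2 ?_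
  refine ⟨L, inferInstance, inferInstance, inferInstance, inferInstance,
    (MulEquiv.ofBijective ρ hbij).symm, ?_, A, hA.1, hA.2, ?_⟩
  · exact hU
  · rw [SnT.prf_SIner k L A hA, ← hdec]
    ext σ
    rw [Subgroup.mem_map]
    constructor
    · intro hσ
      refine ⟨ρ σ, ⟨σ, hσ, rfl⟩, ?_⟩
      exact (MulEquiv.ofBijective ρ hbij).symm_apply_apply σ
    · rintro ⟨_, ⟨τ, hτ, rfl⟩, h⟩
      have h1 : τ = σ := by
        rw [← h]
        exact ((MulEquiv.ofBijective ρ hbij).symm_apply_apply τ).symm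
      rw [← h1]
      exact hτ

theorem prf_AdMain (hIrr : DIrr) (hUnr : DUnr) (hBas : DBas) (hRep : DRep) (hOrb : DOrb)
    (hMax : DMax) : MT.AdMain := by
  intro p hp k _ _ _ F _ _ _
  obtain ⟨ι⟩ := AMain_emb p k F
  obtain ⟨n, hn, hq⟩ := AMain_card p F
  have hp2 := hp.out.two_le
  have hq2 : 2 ≤ Nat.card F := by
    rw [hq]
    calc 2 ≤ p := hp2
      _ = p ^ 1 := (pow_one p).symm
      _ ≤ p ^ n := Nat.pow_le_pow_right (by omega) hn
  have hqk : ((Nat.card F : ℕ) : k) = 0 := by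
    rw [hq, Nat.cast_pow, CharP.cast_eq_zero, zero_pow hn.ne']
  obtain ⟨-, hdeg, hirr, hsep⟩ := hIrr k (Nat.card F) hq2 hqk
  have : FiniteDimensional (RatFunc k) (FG k (Nat.card F)).SplittingField :=
    Polynomial.IsSplittingField.finiteDimensional _ (FG k (Nat.card F))
  have : IsGalois (RatFunc k) (FG k (Nat.card F)).SplittingField :=
    IsGalois.of_separable_splitting_field hsep
  obtain ⟨A, hA⟩ := prf_F4 k (FG k (Nat.card F)).SplittingField
  obtain ⟨w, v, hB⟩ := hBas p k F ι (FG k (Nat.card F)).SplittingField A hA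
  obtain ⟨ρ, hinj, hρ⟩ := hRep p k F ι (FG k (Nat.card F)).SplittingField A w v hB
  have h3 : IsSplittingField (RatFunc k) (FG k (Nat.card F)).SplittingField (FG k (p ^ n)) := by
    rw [← hq]
    infer_instance
  exact AMain_core hOrb hMax p k F ι hq2 hirr (FG k (Nat.card F)).SplittingField A hA w v hB ρ hinj
    hρ (fun A' h1 h2 => hUnr p k n hn (FG k (Nat.card F)).SplittingField A' h1 h2)

end MP7b0bad.Ad
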