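import Pool.Agent.Work.MP_7b0bad_ag.MT.LStmts
import Pool.Agent.Work.MP_7b0bad_ag.SnT.Stmts

set_option autoImplicit false

/-!
# Block Ad: covers given by additive polynomials, special linear groups: definitions
-/

open Polynomial Matrix

namespace MP7b0bad.Ad

open SnT (cc xx)
open MT (Bor2 h2 u2 Rz Nz)

/-! ## The polynomial -/

/-- `Y ^ (q ^ 2 - 1) + x Y ^ (q - 1) + 1` over `k(x)` -/
noncomputable def FG (k : Type) [Field k] (q : ℕ) : (RatFunc k)[X] :=
  SnT.FF k (X ^ (q ^ 2 - 1) + 1) (-X ^ (q - 1))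

theorem aeval_FG {k : Type} [Field k] (q : ℕ) {L : Type} [Field L] [Algebra (RatFunc k) L] (y : L) :
    aeval y (FG k q) = y ^ (q ^ 2 - 1) + xx k L * y ^ (q - 1) + 1 := by
  rw [FG, SnT.aeval_FF]
  simp only [eval₂_add, eval₂_pow, eval₂_X, eval₂_one, eval₂_neg]
  ring

/-- the roots of the additive polynomial `Y ^ (q ^ 2) + x Y ^ q + Y` -/
def Vr (k : Type) [Field k] (q : ℕ) (L : Type) [Field L] [Algebra (RatFunc k) L] : Set L :=
  {y | y ^ (q ^ 2) + xx k L * y ^ q + y = 0}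

theorem FG_ne_zero (k : Type) [Field k] {q : ℕ} (hq : 2 ≤ q) : FG k q ≠ 0 := by
  intro h
  have h1 := aeval_FG (k := k) q (L := RatFunc k) 0
  have h2 : q ^ 2 - 1 ≠ 0 := by
    have : 2 ^ 2 ≤ q ^ 2 := Nat.pow_le_pow_left hq 2
    omega
  rw [h, map_zero, zero_pow h2, zero_pow (by omega : q - 1 ≠ 0), mul_zero, add_zero, zero_add] at h1
  exact zero_ne_one h1

theorem mem_Vr {k : Type} [Field k] {q : ℕ} (hq : 2 ≤ q) {L : Type} [Field L]
    [Algebra (RatFunc k) L] (y : L) : y ∈ Vr k q L ↔ y = 0 ∨ y ∈ (FG k q).rootSet L := by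
  have h1 : y ^ (q ^ 2) = y ^ (q ^ 2 - 1) * y := by
    have : 1 ≤ q ^ 2 := Nat.one_le_pow _ _ (by omega)
    conv_lhs => rw [← Nat.sub_add_cancel this, pow_succ]
  have h2 : y ^ q = y ^ (q - 1) * y := by
    conv_lhs => rw [← Nat.sub_add_cancel (by omega : 1 ≤ q), pow_succ]
  have h3 : y ^ (q ^ 2) + xx k L * y ^ q + y =
      y * (y ^ (q ^ 2 - 1) + xx k L * y ^ (q - 1) + 1) := by
    rw [h1, h2]
    ring
  rw [mem_rootSet, aeval_FG]
  change y ^ (q ^ 2) + xx k L * y ^ q + y = 0 ↔ _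
  rw [h3, mul_eq_zero]
  constructor
  · rintro (h | h)
    · exact Or.inl h
    · exact Or.inr ⟨FG_ne_zero k hq, h⟩
  · rintro (h | h)
    · exact Or.inl h
    · exact Or.inr h.2

/-- `w`, `v` is a basis over the finite field `F` (embedded in `k` by `ι`) of the space of the roots
of `Y ^ (q ^ 2) + x Y ^ q + Y`, `w` in the maximal ideal of `A` and `v` not in `A` -/
structure Bs {k F : Type} [Field k] [Field F] (ι : F →+* k) (q : ℕ) {L : Type} [Field L]
    [Algebra (RatFunc k) L] (A : ValuationSubring L) (w v : L) : Prop where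
  wV : w ∈ Vr k q L
  w0 : w ≠ 0
  wA : w ∈ A.nonunits
  vV : v ∈ Vr k q L
  vA : v ∉ A
  mem : ∀ a b : F, cc k L (ι a) * w + cc k L (ι b) * v ∈ Vr k q L
  span : ∀ y ∈ Vr k q L, ∃ a b : F, y = cc k L (ι a) * w + cc k L (ι b) * v
  ind : ∀ a b : F, cc k L (ι a) * w + cc k L (ι b) * v = 0 → a = 0 ∧ b = 0
  big : ∀ a b : F, b ≠ 0 → cc k L (ι a) * w + cc k L (ι b) * v ∉ A

/-! ## Matrices -/

/-- the matrices `[1, b; 0, 1]` -/
def U2 (F : Type) [Field F] : Subgroup (SpecialLinearGroup (Fin 2) F) where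
  carrier := Set.range u2
  one_mem' := by
    refine ⟨0, Subtype.ext ?_⟩
    ext i j
    fin_cases i <;> fin_cases j <;> simp [u2]
  mul_mem' := by
    rintro _ _ ⟨a, rfl⟩ ⟨b, rfl⟩
    refine ⟨b + a, Subtype.ext ?_⟩
    ext i j
    fin_cases i <;> fin_cases j <;> simp [u2, Matrix.mul_apply, Fin.sum_univ_two]
  inv_mem' := by
    rintro _ ⟨a, rfl⟩
    refine ⟨-a, Subtype.ext ?_⟩
    change (u2 (-a)).1 = Matrix.adjugate (u2 a).1
    ext i j
    fin_cases i <;> fin_cases j <;> simp [u2, Matrix.adjugate_fin_two]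

/-- unitriangular matrix -/
def Tri {n : ℕ} {F : Type} [Field F] (M : Matrix (Fin n) (Fin n) F) : Prop :=
  (∀ i j, j < i → M i j = 0) ∧ ∀ i, M i i = 1

theorem Tri.mul {n : ℕ} {F : Type} [Field F] {M N : Matrix (Fin n) (Fin n) F} (hM : Tri M)
    (hN : Tri N) : Tri (M * N) := by
  constructor
  · intro i j hij
    rw [Matrix.mul_apply]
    refine Finset.sum_eq_zero fun l _ => ?_
    by_cases h : l < i
    · rw [hM.1 i l h, zero_mul]
    · rw [hN.1 l j (by omega), mul_zero]
  · intro i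
    rw [Matrix.mul_apply, Finset.sum_eq_single i]
    · rw [hM.2, hN.2, one_mul]
    · intro l _ hl
      by_cases h : l < i
      · rw [hM.1 i l h, zero_mul]
      · rw [hN.1 l i (by omega), mul_zero]
    · intro h
      exact absurd (Finset.mem_univ i) h

theorem Tri.inv {n : ℕ} {F : Type} [Field F] {M : Matrix (Fin n) (Fin n) F} (hM : Tri M) :
    Tri M⁻¹ := by
  have hd : M.det = 1 := by
    rw [Matrix.det_of_isUpperTriangular (fun i j h => hM.1 i j h)]
    exact Finset.prod_eq_one fun i _ => hM.2 i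
  have hu : IsUnit M.det := by rw [hd]; exact isUnit_one
  have _inst : Invertible M := Matrix.invertibleOfIsUnitDet M hu
  have hb : Matrix.BlockTriangular M⁻¹ id :=
    Matrix.blockTriangular_inv_of_blockTriangular (b := id) (fun i j h => hM.1 i j h)
  refine ⟨fun i j h => hb h, fun i => ?_⟩
  have h1 : (M * M⁻¹) i i = 1 := by rw [Matrix.mul_nonsing_inv M hu, Matrix.one_apply_eq]
  rw [Matrix.mul_apply, Finset.sum_eq_single i, hM.2, one_mul] at h1
  · exact h1
  · intro l _ hl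
    by_cases h : l < i
    · rw [hM.1 i l h, zero_mul]
    · have h2 : M⁻¹ l i = 0 := hb (show id i < id l by simp only [id]; omega)
      rw [h2, mul_zero]
  · intro h
    exact absurd (Finset.mem_univ i) h

/-- upper unitriangular matrices in `SL_n(F)` -/
def UT (n : ℕ) (F : Type) [Field F] : Subgroup (SpecialLinearGroup (Fin n) F) where
  carrier := {M | Tri M.1}
  one_mem' := ⟨fun i j h => Matrix.one_apply_ne (by omega), fun i => Matrix.one_apply_eq i⟩
  mul_mem' := fun hM hN => Tri.mul hM hN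
  inv_mem' := by
    intro M hM
    have h1 : (M⁻¹).1 = (M.1)⁻¹ := by
      change Matrix.adjugate M.1 = (M.1)⁻¹
      rw [Matrix.inv_def, M.2, Ring.inverse_one, one_smul]
    change Tri (M⁻¹).1
    rw [h1]
    exact Tri.inv hM

/-- the `(n + 1) x 2` matrix with columns `e_i`, `e_(i+1)` -/
def colM {n : ℕ} (F : Type) [Field F] (i : Fin n) : Matrix (Fin (n + 1)) (Fin 2) F :=
  Matrix.of fun a x => if a = ![i.castSucc, i.succ] x then 1 else 0

theorem colM_mul {n : ℕ} (F : Type) [Field F] (i : Fin n) : (colM F i)ᵀ * colM F i = 1 := by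
  have h : i.castSucc ≠ i.succ := Fin.castSucc_lt_succ.ne
  ext x y
  rw [Matrix.mul_apply]
  simp only [colM, Matrix.transpose_apply, Matrix.of_apply]
  fin_cases x <;> fin_cases y <;> simp [h, h.symm]

/-- the block embedding of `SL_2(F)` in `SL_(n+1)(F)` at the positions `i`, `i + 1` -/
def emb {n : ℕ} {F : Type} [Field F] (i : Fin n) :
    SpecialLinearGroup (Fin 2) F →* SpecialLinearGroup (Fin (n + 1)) F where
  toFun M := ⟨1 + colM F i * ((M.1 - 1) * (colM F i)ᵀ), by
    rw [Matrix.det_one_add_mul_comm, Matrix.mul_assoc, colM_mul, Matrix.mul_one, add_sub_cancel]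
    exact M.2⟩
  map_one' := by
    apply Subtype.ext
    simp
  map_mul' M N := by
    apply Subtype.ext
    have h := colM_mul F i
    have h1 : colM F i * ((M.1 - 1) * (colM F i)ᵀ) * (colM F i * ((N.1 - 1) * (colM F i)ᵀ)) =
        colM F i * ((M.1 - 1) * (N.1 - 1) * (colM F i)ᵀ) := by
      calc colM F i * ((M.1 - 1) * (colM F i)ᵀ) * (colM F i * ((N.1 - 1) * (colM F i)ᵀ))
          = colM F i * ((M.1 - 1) * ((colM F i)ᵀ * colM F i) * ((N.1 - 1) * (colM F i)ᵀ)) := by
            simp only [Matrix.mul_assoc]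
        _ = _ := by
            rw [h]
            simp only [Matrix.mul_assoc, Matrix.one_mul]
    change 1 + colM F i * ((M.1 * N.1 - 1) * (colM F i)ᵀ) =
      (1 + colM F i * ((M.1 - 1) * (colM F i)ᵀ)) * (1 + colM F i * ((N.1 - 1) * (colM F i)ᵀ))
    rw [add_mul, one_mul, mul_add, mul_one, h1]
    have h2 : M.1 * N.1 - 1 = (M.1 - 1) + (N.1 - 1) + (M.1 - 1) * (N.1 - 1) := by noncomm_ring
    rw [h2]
    simp only [Matrix.add_mul, Matrix.mul_add]
    abel

end MP7b0bad.Ad
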