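import Pool.Agent.Work.MP_7b0bad_ag.Ad.Stmts
import Pool.Agent.Work.MP_7b0bad_ag.MT.ANax
import Pool.Agent.Work.MP_7b0bad_ag.MT.MChar2

set_option autoImplicit false

/-!
# The rank one groups are realised in `SL_2`
-/

namespace MP7b0bad.Ad

open SnT (cc xx)
open MT (Bor2 h2 u2 Rz Nz)

theorem LRz_mul {F : Type} [Field F] (a b : F) : (u2 a * u2 b : Matrix.SpecialLinearGroup (Fin 2) F)
    = u2 (a + b) := by
  refine Subtype.ext ?_
  ext i j
  fin_cases i <;> fin_cases j <;> simp [u2, Matrix.mul_apply, Fin.sum_univ_two, add_comm]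

theorem LRz_zero {F : Type} [Field F] : (u2 (0 : F) : Matrix.SpecialLinearGroup (Fin 2) F) = 1 := by
  refine Subtype.ext ?_
  ext i j
  fin_cases i <;> fin_cases j <;> simp [u2]

theorem LRz_pow {F : Type} [Field F] (a : F) (n : ℕ) :
    (u2 a : Matrix.SpecialLinearGroup (Fin 2) F) ^ n = u2 ((n : F) * a) := by
  induction n with
  | zero => rw [pow_zero, Nat.cast_zero, zero_mul, LRz_zero]
  | succ n ih =>
    rw [pow_succ, ih, LRz_mul]
    congr 1
    push_cast
    ring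

/-- `h2` as a homomorphism -/
def LRz_hom (F : Type) [Field F] : Fˣ →* Matrix.SpecialLinearGroup (Fin 2) F where
  toFun := h2
  map_one' := by
    refine Subtype.ext ?_
    ext i j
    fin_cases i <;> fin_cases j <;> simp [h2]
  map_mul' s t := by
    refine Subtype.ext ?_
    ext i j
    fin_cases i <;> fin_cases j <;>
      simp [h2, Matrix.mul_apply, Fin.sum_univ_two, mul_comm]

theorem LRz_conj {F : Type} [Field F] (s : Fˣ) (b : F) :
    h2 s * u2 b * (h2 s)⁻¹ = u2 ((s : F) ^ 2 * b) := by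
  rw [mul_inv_eq_iff_eq_mul]
  refine Subtype.ext ?_
  ext i j
  fin_cases i <;> fin_cases j <;>
    simp [h2, u2, Matrix.mul_apply, Fin.sum_univ_two]
  field_simp

theorem LRz_pgroup (p : ℕ) [Fact p.Prime] (F : Type) [Field F] [CharP F p] :
    IsPGroup p (U2 F) := by
  rintro ⟨g, b, rfl⟩
  refine ⟨1, Subtype.ext ?_⟩
  change (u2 b : Matrix.SpecialLinearGroup (Fin 2) F) ^ p ^ 1 = 1
  rw [pow_one, LRz_pow, CharP.cast_eq_zero, zero_mul, LRz_zero]

theorem LRz_ord (p : ℕ) [Fact p.Prime] (F : Type) [Field F] [Finite F] [CharP F p] (s : Fˣ) :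
    ¬ p ∣ orderOf (h2 s) := by
  have _ft : Fintype F := Fintype.ofFinite F
  intro h
  have h1 : orderOf (h2 s) ∣ orderOf s := orderOf_map_dvd (LRz_hom F) s
  have h2' : orderOf s ∣ Nat.card Fˣ := orderOf_dvd_natCard s
  have h3 : Nat.card Fˣ + 1 = Nat.card F := by
    rw [Nat.card_units]
    have : 0 < Nat.card F := Nat.card_pos
    omega
  have h4 : p ∣ Nat.card F := by
    rw [Nat.card_eq_fintype_card]
    exact (CharP.cast_eq_zero_iff F p _).mp (FiniteField.cast_card_eq_zero F)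
  have h5 : p ∣ 1 := (Nat.dvd_add_right ((h.trans h1).trans h2')).mp (h3 ▸ h4)
  exact (Fact.out : p.Prime).one_lt.ne' (Nat.dvd_one.mp h5)

theorem LRz_nz (p : ℕ) [Fact p.Prime] (F : Type) [Field F] [Finite F] [CharP F p] (s : Fˣ) :
    Nz p (U2 F) (h2 s) := by
  refine ⟨LRz_pgroup p F, LRz_ord p F s, ?_⟩
  rintro _ ⟨b, rfl⟩
  exact ⟨(s : F) ^ 2 * b, (LRz_conj s b).symm⟩

theorem LRz_bor (F : Type) [Field F] (g : Fˣ) (hg : ∀ x : Fˣ, x ∈ Subgroup.zpowers g) :
    U2 F ⊔ Subgroup.zpowers (h2 g) = Bor2 F := by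
  refine le_antisymm (sup_le ?_ ?_) ?_
  · rintro _ ⟨b, rfl⟩
    change (u2 b : Matrix.SpecialLinearGroup (Fin 2) F).1 1 0 = 0
    simp [u2]
  · rw [Subgroup.zpowers_le]
    change (h2 g : Matrix.SpecialLinearGroup (Fin 2) F).1 1 0 = 0
    simp [h2]
  · intro M hM
    have hM' : M.1 1 0 = 0 := hM
    have hdet : M.1 0 0 * M.1 1 1 = 1 := by
      have := M.2
      rw [Matrix.det_fin_two, hM', mul_zero, sub_zero] at this
      exact this
    have h0 : M.1 0 0 ≠ 0 := left_ne_zero_of_mul_eq_one hdet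
    have h1 : M.1 1 1 = (M.1 0 0)⁻¹ := eq_inv_of_mul_eq_one_right hdet
    have e : M = u2 (M.1 0 0 * M.1 0 1) * h2 (Units.mk0 _ h0) := by
      refine Subtype.ext ?_
      ext i j
      fin_cases i <;> fin_cases j
      · simp [u2, h2, Matrix.mul_apply, Fin.sum_univ_two]
      · change M.1 0 1 = _
        simp [u2, h2, Matrix.mul_apply, Fin.sum_univ_two]
        field_simp
      · change M.1 1 0 = _
        simp [u2, h2, Matrix.mul_apply, Fin.sum_univ_two, hM']
      · change M.1 1 1 = _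
        simp [u2, h2, Matrix.mul_apply, Fin.sum_univ_two, h1]
    rw [e]
    refine Subgroup.mul_mem_sup ⟨_, rfl⟩ ?_
    obtain ⟨n, hn⟩ := hg (Units.mk0 _ h0)
    refine ⟨n, ?_⟩
    change (h2 g) ^ n = _
    rw [← hn]
    exact (map_zpow (LRz_hom F) g n).symm

theorem prf_LRz (hAd : MT.AdMain) : LRz := by
  intro p _ k _ _ _ F _ _ _ s
  refine ⟨LRz_nz p F s, ?_⟩
  obtain ⟨g, hg⟩ := IsCyclic.exists_generator (α := Fˣ)
  have h1 : Rz k (U2 F) (h2 g) ⊤ := by
    refine ⟨le_top, ?_⟩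
    rw [LRz_bor F g hg]
    exact MT.MChar2_toTop k _ _ (hAd p k F)
  obtain ⟨m, hm⟩ := (mem_powers_iff_mem_zpowers (x := g) (y := s)).mpr (hg s)
  have h2' : h2 s = (h2 g) ^ m := by
    have hm' : g ^ m = s := hm
    rw [← hm']
    exact map_pow (LRz_hom F) g m
  rw [h2']
  exact MT.anax_pow p m (LRz_nz p F g) h1

end MP7b0bad.Ad
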