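import Pool.Agent.Work.MP_7b0bad_ag.Ad.Defs

set_option autoImplicit false

/-!
# Block Ad: additive covers, special linear groups in the defining characteristic: statements

`v = A.valuation`, `m = A.nonunits`, `D` = decomposition group of `A` (`σ • A = A`),
`F` a finite field, `ι : F → k`, `q = Nat.card F`; `a ∈ F` acts on `L` by `cc k L (ι a)`.
Generic tools in the repository: `AnT/AOrb.lean` (`AOrb_gen`), `AnT/AIrr.lean`, `AnT/AUnr.lean`,
`AnT/AVal.lean`, `AnT/AFld.lean`, `SnT/SOrb.lean` (`SOrb_val`, `SOrb_inj`), `SnT/SGal.lean`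
(`SGal_inj`), `Bd` (`F3_X : AtInfty A → 1 < v x`, `F3_C` : constants have value 1, `F8_dec`).
-/

open Polynomial Pointwise Matrix

namespace MP7b0bad.Ad

open SnT (cc xx)
open MT (Bor2 h2 u2 Rz Nz)

/-! ## The cover -/

/-- [DIrr] `N = Y^(q^2-1) + 1`, `D = -Y^(q-1)` are coprime, `N - x D` is linear in `x`: as
`AnT/AIrr.lean`. Separable: `G = Y^(q^2-1) + x Y^(q-1) + 1`, `q = 0` in `k`, so
`Y G' = -Y^(q^2-1) - x Y^(q-1) = 1 - G`. -/
def DIrr : Prop := ∀ (k : Type) [Field k] (q : ℕ), 2 ≤ q → ((q : ℕ) : k) = 0 →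
  (FG k q).Monic ∧ (FG k q).natDegree = q ^ 2 - 1 ∧ Irreducible (FG k q) ∧ (FG k q).Separable

/-- [DUnr] Finite places are unramified. The roots are in `A` (monic polynomial with coefficients
in `A`). `σ` in the inertia group, `y` a root: `z = σ y - y ∈ m`, and `z` satisfies
`z^(q^2) + x z^q + z = 0` (additive, `q = p^n`). If `z ≠ 0` then `z^(q^2-1) + x z^(q-1) + 1 = 0`,
but the first two terms are in `m`. So `σ` fixes all roots, `σ = 1`. (Compare `AnT/AUnr.lean` for the
treatment of the inertia group.) -/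
def DUnr : Prop := ∀ (p : ℕ) [Fact p.Prime] (k : Type) [Field k] [CharP k p] (n : ℕ), 0 < n →
  ∀ (L : Type) [Field L] [Algebra (RatFunc k) L]
  [IsSplittingField (RatFunc k) L (FG k (p ^ n))] (A : ValuationSubring L), (∀ c : k, cc k L c ∈ A) →
  xx k L ∈ A → ValuationSubring.inertiaSubgroup (RatFunc k) A = ⊥

/-- [DVal] `y^(q^2-1) + x y^(q-1) = -1`. If `v(y) > 1` the two terms on the left have the same value
(both are `> 1`): `v(y)^(q^2-q) = v(x)`. If `v(y) ≤ 1`, then `v(x y^(q-1)) ≤ 1`, so `v(y) < 1`, and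
`v(x y^(q-1)) = 1`. -/
def DVal : Prop := ∀ (k : Type) [Field k] (q : ℕ), 2 ≤ q → ∀ (L : Type) [Field L]
  [Algebra (RatFunc k) L] (A : ValuationSubring L), AtInfty (k := k) A → ∀ y ∈ Vr k q L, y ≠ 0 →
  (y ∈ A.nonunits ∧ A.valuation y ^ (q - 1) * A.valuation (xx k L) = 1) ∨
    (y ∉ A ∧ A.valuation y ^ (q ^ 2 - q) = A.valuation (xx k L))

/-- [DBas] (hIrr, hVal) `Vr` has `q^2` elements (`FG` is separable of degree `q^2 - 1`), it is closed
under addition (`q` is a power of `p`) and under multiplication by `F` (`a^q = a`). The product of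
the roots of `FG` is `± 1` (constant coefficient `1`), so not all nonzero elements of `Vr` are in `m`
and not all are outside `A`: choose `w ≠ 0` in `m` and `v ∉ A`. `a w + b v`: if `b ≠ 0` its value is
`v(v) > 1` (`v(a w) < 1`, `v(b) = 1` by `F3_C`), in particular it is not `0` and not in `A`; if
`b = 0` and `a ≠ 0` it is not `0`. So `(a, b) ↦ a w + b v` is injective `F × F → Vr`, hence
surjective. -/
def DBas : Prop := ∀ (p : ℕ) [Fact p.Prime] (k : Type) [Field k] [CharP k p] (F : Type) [Field F]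
  [Finite F] (ι : F →+* k) (L : Type) [Field L] [Algebra (RatFunc k) L]
  [IsSplittingField (RatFunc k) L (FG k (Nat.card F))] (A : ValuationSubring L),
  AtInfty (k := k) A → ∃ w v : L, Bs ι (Nat.card F) A w v

/-- [DRep] The matrix of `σ` in the basis `w`, `v` (columns: `σ w = a w + c v`, `σ v = b w + d v`).
`σ` fixes the constants and maps `Vr` to itself, so `Bs.span` gives the coefficients, `Bs.ind` the
multiplicativity. Determinant (Moore): `δ = w v^q - w^q v` satisfies
`δ^q = w^q v^(q^2) - w^(q^2) v^q = w^q (- x v^q - v) + (x w^q + w) v^q = δ`, and `δ ≠ 0` (otherwise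
`t = v / w` has `t^q = t`, so `t` is one of the `q` roots `cc (ι a)` of `T^q - T`, against
`Bs.ind`); in the same way `δ^q = δ` gives `δ = cc (ι a)` for some `a`, so `σ δ = δ`; but
`σ δ = (a d - b c) δ` (`a^q = a` in `F`). So `a d - b c = 1`. Injective: `L` is generated by the
roots (`SGal_inj`). -/
def DRep : Prop := ∀ (p : ℕ) [Fact p.Prime] (k : Type) [Field k] [CharP k p] (F : Type) [Field F]
  [Finite F] (ι : F →+* k) (L : Type) [Field L] [Algebra (RatFunc k) L]
  [IsSplittingField (RatFunc k) L (FG k (Nat.card F))] (A : ValuationSubring L) (w v : L),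
  Bs ι (Nat.card F) A w v → ∃ ρ : (L ≃ₐ[RatFunc k] L) →* SpecialLinearGroup (Fin 2) F,
    Function.Injective ρ ∧ ∀ σ : L ≃ₐ[RatFunc k] L,
      σ w = cc k L (ι ((ρ σ).1 0 0)) * w + cc k L (ι ((ρ σ).1 1 0)) * v ∧
      σ v = cc k L (ι ((ρ σ).1 0 1)) * w + cc k L (ι ((ρ σ).1 1 1)) * v

/-- [DOrb] (hVal) The decomposition group is transitive on the elements of `Vr` outside `A`.
`AnT.AOrb_gen` with `R = {y ∈ Vr | y ∉ A}`, `s = 1`, `q ↦ q^2 - q`. By `Bs` the elements of `R` are
the `a w + b v` with `b ≠ 0`: `R.ncard = q (q - 1)`. -/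
def DOrb : Prop := ∀ (p : ℕ) [Fact p.Prime] (k : Type) [Field k] [IsAlgClosed k] [CharP k p]
  (F : Type) [Field F] [Finite F] (ι : F →+* k) (L : Type) [Field L] [Algebra (RatFunc k) L]
  [IsSplittingField (RatFunc k) L (FG k (Nat.card F))] [FiniteDimensional (RatFunc k) L]
  [IsGalois (RatFunc k) L] (A : ValuationSubring L) (w v : L), AtInfty (k := k) A →
  Bs ι (Nat.card F) A w v → ∀ y ∈ Vr k (Nat.card F) L, y ∉ A → ∀ y' ∈ Vr k (Nat.card F) L, y' ∉ A →
  ∃ σ : L ≃ₐ[RatFunc k] L, σ • A = A ∧ σ y = y'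

/-- [DMax] The Borel subgroup is maximal in `SL_2`. `g = [a, b; c, d]` with `c ≠ 0`: multiplying on
both sides with elements `u2`, `H` contains `[0, -1/c; c, 0]`, with `h2 c` also
`w = [0, -1; 1, 0]`, so also the lower unitriangular matrices `w u2(b) w⁻¹`, and `SL_2` is generated
by these and `Bor2` (`[a, b; c, d]` with `a ≠ 0` is `[1, 0; c/a, 1] [a, b; 0, 1/a]`; if `a = 0`
multiply by `w`). -/
def DMax : Prop := ∀ (F : Type) [Field F] (H : Subgroup (SpecialLinearGroup (Fin 2) F)),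
  Bor2 F ≤ H → (∃ g ∈ H, g ∉ Bor2 F) → H = ⊤

/-- [LRz] (hAd : MT.AdMain) `U2 F` is a `p`-group (all elements have order dividing `p`) normalised
by `h2 s`; `orderOf (h2 s)` divides `q - 1`. `Fˣ` is cyclic, generated by `g`:
`Bor2 F = U2 F ⊔ zpowers (h2 g)` (`[a, b; 0, 1/a] = u2 (a b) (h2 a)`), so `hAd` gives
`Rz k (U2 F) (h2 g) ⊤` (see `MChar2_toTop`, MT/MChar2.lean), and `h2 s` is a power of `h2 g`:
`MT.anax_pow` (MT/ANax.lean). -/
def LRz : Prop := ∀ (p : ℕ) [Fact p.Prime] (k : Type) [Field k] [IsAlgClosed k] [CharP k p]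
  (F : Type) [Field F] [Finite F] [CharP F p] (s : Fˣ),
  Nz p (U2 F) (h2 s) ∧ Rz k (U2 F) (h2 s) ⊤

/-! ## Special linear groups -/

/-- [SSyl] `UT n F` is a Sylow `p`-subgroup of `SL_n(F)`, so all Sylow subgroups are conjugate to
it. `Nat.card (UT n F) = q^(n(n-1)/2)` and the order of `SL_n(F)` is not divisible by a higher power
of `p`: `Matrix.card_GL_field` and the determinant `GL_n → Fˣ`. (Other way: induction on `n` with a
vector fixed by the `p`-group.) -/
def SSyl : Prop := ∀ (p : ℕ) [Fact p.Prime] (F : Type) [Field F] [Finite F] [CharP F p] (n : ℕ),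
  IsPGroup p (UT n F) ∧ ∀ P : Sylow p (SpecialLinearGroup (Fin n) F),
    ∃ g : SpecialLinearGroup (Fin n) F, (P : Subgroup (SpecialLinearGroup (Fin n) F)) =
      (UT n F).map (MulAut.conj g).toMonoidHom

/-- [SNrm] The normaliser of `UT` consists of upper triangular matrices. `M` with
`M UT M⁻¹ ≤ UT`; `UT` is finite, so also `M⁻¹ UT M ≤ UT`. Induction on the column `j`: suppose
`M b i = 0` for all `i < j`, `i < b`. For `b > j` let `u = 1 + E_jb`, `u M = M u''`, `u'' ∈ UT`, so
`E_jb M = M N''` with `N''` strictly upper triangular; in column `j` this is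
`M_bj e_j = ∑_{l < j} N''_lj M e_l`, whose `j`-th coordinate is `0`. So `M_bj = 0`. Then `t` = the
diagonal part of `M` (determinant `1`), `t⁻¹ M ∈ UT`, and the two groups are equal. -/
def SNrm : Prop := ∀ (F : Type) [Field F] [Finite F] (n : ℕ) (c : SpecialLinearGroup (Fin n) F),
  (∀ x ∈ UT n F, c * x * c⁻¹ ∈ UT n F) → ∃ t : SpecialLinearGroup (Fin n) F,
    (∀ i j, i ≠ j → t.1 i j = 0) ∧
    UT n F ⊔ Subgroup.zpowers c = UT n F ⊔ Subgroup.zpowers t

/-- [SPrep] Properties of the block embeddings. `emb i (h2 s)` is the diagonal matrix with `s` at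
`i`, `s⁻¹` at `i + 1`; `emb i (u2 b) = 1 + b E_(i,i+1)`. For `t = diag(t_0, ..., t_n)` with product
`1` put `s_i = t_0 ... t_i`. -/
def SPrep : Prop := ∀ (F : Type) [Field F] (n : ℕ),
  (∀ (i : Fin n) (b : F), emb i (u2 b) ∈ UT (n + 1) F) ∧
  (∀ (i : Fin n) (s : Fˣ), ∀ x ∈ UT (n + 1) F, emb i (h2 s) * x * (emb i (h2 s))⁻¹ ∈ UT (n + 1) F) ∧
  (∀ (i j : Fin n) (s t : Fˣ), Commute (emb i (h2 s)) (emb j (h2 t))) ∧
  ∀ t : SpecialLinearGroup (Fin (n + 1)) F, (∀ i j, i ≠ j → t.1 i j = 0) →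
    ∃ s : Fin n → Fˣ, (List.ofFn fun i => emb i (h2 (s i))).prod = t

/-- [SGen] (hPrep) `SL_(n+1)(F)` is generated by `UT` and the block embeddings. Every matrix is
`L D L'`, `L`, `L'` products of transvections, `D` diagonal (Mathlib: `Matrix.Pivot`,
`Matrix.diagonal_transvection_induction` or `Pivot.exists_list_transvec_mul_diagonal_mul_list_transvec`);
`D` is a product of `emb i (h2 s)` (`SPrep`). The transvection `1 + a E_ij` is in `UT` for `i < j`;
for `i = j + 1` it is `emb j` of a lower unitriangular matrix; for `i > j + 1` it is a commutator of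
`1 + a E_(i,j+1)` and `1 + E_(j+1,j)` (induction on `i - j`). -/
def SGen : Prop := ∀ (F : Type) [Field F] (n : ℕ),
  UT (n + 1) F ⊔ (⨆ i : Fin n, (emb (F := F) i).range) = ⊤

/-- [S2N] `SL_2` in characteristic 2. `P ≠ ⊥` is a 2-group: after a conjugation `P ≤ U2 F` (a Sylow
subgroup; or: the 2-group `P` fixes a nonzero vector of `F^2`, because it fixes `0` and the number
of vectors is even; take a basis with this first vector and determinant `1`). The line `F e_1` is
the only line fixed by a nontrivial element of `U2 F`, so `c` fixes it: `c` is upper triangular with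
diagonal `l`, `l⁻¹`. If `l = 1` then `c ∈ U2 F` has order `1` or `2`, so `c = 1`. If `l ≠ 1`,
conjugate with an element of `U2 F` (which centralises `P`): `c = h2 l`. `P = {u2 a | a ∈ M}`,
`M` an additive subgroup with `l^2 M ⊆ M`; `l` is a power of `l^2` (odd order), so `M` is stable under
`F' = Subfield.closure {l}` (all elements are polynomials in `l` with coefficients in `F_2`, or:
the set of `x ∈ F` with `x M ⊆ M` is a subring, finite, so a subfield, and it contains `l`). Choose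
`0 ≠ a ∈ M`, `a = r^2` (`F` is perfect): `h2 r * u2 b * (h2 r)⁻¹ = u2 (r^2 b) = u2 (a b) ∈ P` for
`b ∈ F'`, and `h2 r` commutes with `h2 l`. -/
def S2N : Prop := ∀ (F : Type) [Field F] [Finite F] [CharP F 2]
  (P : Subgroup (SpecialLinearGroup (Fin 2) F)) (c : SpecialLinearGroup (Fin 2) F), Nz 2 P c →
  P ≠ ⊥ → ∃ (F' : Subfield F) (g : SpecialLinearGroup (Fin 2) F) (s : F'ˣ),
    (∀ b : F', g * SpecialLinearGroup.map F'.subtype (u2 b) * g⁻¹ ∈ P) ∧
    g * SpecialLinearGroup.map F'.subtype (h2 s) * g⁻¹ = c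

end MP7b0bad.Ad
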